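import Pool.Agent.H469R2.NK.KL

/-! The sawtooth function and exponential sums. -/

set_option autoImplicit false

namespace Pool.Agent.Y965.PS

open Finset Filter Topology Pool.Agent.H469R2.NK

/-- half of the periodic Bernoulli function of order two -/
noncomputable def PB2 (x : ℝ) : ℝ := (Int.fract x ^ 2 - Int.fract x + 1 / 6) / 2

/-- the sawtooth function -/
noncomputable def psi (x : ℝ) : ℝ := Int.fract x - 1 / 2

theorem PB2_series (x : ℝ) :
    HasSum (fun n : ℕ => Real.cos (2 * Real.pi * n * x) / (2 * Real.pi ^ 2 * (n : ℝ) ^ 2)) (PB2 x) := by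
  have h := hasSum_one_div_nat_pow_mul_cos one_ne_zero (x := Int.fract x) ⟨Int.fract_nonneg x, (Int.fract_lt_one x).le⟩
  have h2 := h.mul_left (1 / (2 * Real.pi ^ 2))
  have e1 : 1 / (2 * Real.pi ^ 2) * ((-1 : ℝ) ^ (1 + 1) * (2 * Real.pi) ^ (2 * 1) / 2 / (2 * 1).factorial *
        (Polynomial.map (algebraMap ℚ ℝ) (Polynomial.bernoulli (2 * 1))).eval (Int.fract x)) = PB2 x := by
    unfold PB2
    rw [Polynomial.bernoulli_def]
    simp only [Finset.sum_range_succ, Finset.sum_range_zero]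
    have hpi : Real.pi ≠ 0 := Real.pi_ne_zero
    simp [bernoulli_two, bernoulli_one, bernoulli_zero, Nat.choose, Nat.factorial]
    field_simp
    ring
  rw [e1] at h2
  have e2 : (fun n : ℕ => Real.cos (2 * Real.pi * n * x) / (2 * Real.pi ^ 2 * (n : ℝ) ^ 2)) =
      fun n : ℕ => 1 / (2 * Real.pi ^ 2) * (1 / (n : ℝ) ^ (2 * 1) * Real.cos (2 * Real.pi * n * Int.fract x)) := by
    funext n
    have e3 : 2 * Real.pi * n * x = 2 * Real.pi * n * Int.fract x + ((n * ⌊x⌋ : ℤ) : ℝ) * (2 * Real.pi) := by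
      have := Int.floor_add_fract x
      push_cast
      calc 2 * Real.pi * n * x = 2 * Real.pi * n * (⌊x⌋ + Int.fract x) := by rw [this]
        _ = _ := by ring
    rw [e3, Real.cos_add_int_mul_two_pi, mul_one]
    rw [div_eq_mul_one_div, one_div, one_div, one_div, mul_inv (2 * Real.pi ^ 2)]
    ring
  rw [e2]
  exact h2

theorem PB2_trunc (x : ℝ) {K : ℕ} (hK : 1 ≤ K) :
    |PB2 x - ∑ n ∈ Icc 1 K, Real.cos (2 * Real.pi * n * x) / (2 * Real.pi ^ 2 * (n : ℝ) ^ 2)| ≤ 1 / K := by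
  set f : ℕ → ℝ := fun n => Real.cos (2 * Real.pi * n * x) / (2 * Real.pi ^ 2 * (n : ℝ) ^ 2) with hf
  have hs := (PB2_series x).tendsto_sum_nat
  have hf0 : f 0 = 0 := by rw [hf]; simp
  have hr : ∀ M : ℕ, ∑ n ∈ range (M + 1), f n = ∑ n ∈ Icc 1 M, f n := by
    intro M
    rw [sum_range_succ', hf0, add_zero]
    have h3 : Icc 1 M = Ico 1 (M + 1) := by ext n; simp only [mem_Icc, mem_Ico]; omega
    rw [h3, sum_Ico_eq_sum_range]
    simp only [Nat.add_sub_cancel]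
    exact sum_congr rfl fun n _ => by rw [add_comm]
  have hf1 : ∀ n : ℕ, 2 ≤ n → |f n| ≤ 1 / ((n : ℝ) - 1) - 1 / n := by
    intro n hn
    have hn2 : (2 : ℝ) ≤ n := by exact_mod_cast hn
    have h1 : |f n| ≤ 1 / (2 * Real.pi ^ 2 * (n : ℝ) ^ 2) := by
      rw [hf]; dsimp only
      rw [abs_div, abs_of_pos (by positivity : 0 < 2 * Real.pi ^ 2 * (n : ℝ) ^ 2)]
      exact div_le_div_of_nonneg_right (Real.abs_cos_le_one _) (by positivity)
    refine h1.trans ?_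
    have h2 : 1 / ((n : ℝ) - 1) - 1 / n = 1 / (((n : ℝ) - 1) * n) := by
      rw [div_sub_div _ _ (by linarith) (by linarith)]; ring
    rw [h2]
    apply one_div_le_one_div_of_le
    · apply mul_pos <;> linarith
    · have := Real.pi_gt_three
      have h3 : (1 : ℝ) ≤ 2 * Real.pi ^ 2 := by nlinarith
      nlinarith
  have hdiff : ∀ M : ℕ, K ≤ M → |∑ n ∈ Icc 1 M, f n - ∑ n ∈ Icc 1 K, f n| ≤ 1 / K - 1 / M := by
    intro M hM
    induction M, hM using Nat.le_induction with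
    | base => simp
    | succ M hM ih =>
      have hM1 : 1 ≤ M := hK.trans hM
      rw [Finset.sum_Icc_succ_top (by omega)]
      have h1 := hf1 (M + 1) (by omega)
      have e : ((M + 1 : ℕ) : ℝ) - 1 = M := by push_cast; ring
      rw [e] at h1
      have e2 : ∑ n ∈ Icc 1 M, f n + f (M + 1) - ∑ n ∈ Icc 1 K, f n
          = (∑ n ∈ Icc 1 M, f n - ∑ n ∈ Icc 1 K, f n) + f (M + 1) := by ring
      rw [e2]
      refine (abs_add_le _ _).trans ?_
      linarith
  have hlim : Tendsto (fun M : ℕ => |∑ n ∈ range (M + 1), f n - ∑ n ∈ Icc 1 K, f n|) atTop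
      (𝓝 |PB2 x - ∑ n ∈ Icc 1 K, f n|) :=
    ((hs.comp (tendsto_add_atTop_nat 1)).sub_const _).abs
  refine le_of_tendsto hlim ?_
  filter_upwards [eventually_ge_atTop K] with M hM
  rw [hr]
  have h1 := hdiff M hM
  have h2 : (0 : ℝ) ≤ 1 / M := by positivity
  linarith

theorem psi_upper (x : ℝ) {η : ℝ} (h0 : 0 < η) (h1 : η < 1) :
    psi x ≤ η / 2 + (PB2 x - PB2 (x - η)) / η := by
  set u := Int.fract x with hu
  have hu0 := Int.fract_nonneg x
  have hu1 := Int.fract_lt_one x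
  rw [← hu] at hu0 hu1
  have hfl := Int.floor_add_fract x
  rcases le_or_gt η u with h | h
  · have e : Int.fract (x - η) = u - η := by
      rw [Int.fract_eq_iff]
      exact ⟨by linarith, by linarith, ⌊x⌋, by rw [hu]; linarith⟩
    unfold psi PB2
    rw [e, ← hu]
    have e2 : ((u ^ 2 - u + 1 / 6) / 2 - ((u - η) ^ 2 - (u - η) + 1 / 6) / 2) / η = u - η / 2 - 1 / 2 := by
      field_simp; ring
    rw [e2]
    linarith
  · have e : Int.fract (x - η) = u - η + 1 := by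
      rw [Int.fract_eq_iff]
      exact ⟨by linarith, by linarith, ⌊x⌋ - 1, by push_cast; rw [hu]; linarith⟩
    unfold psi PB2
    rw [e, ← hu]
    have e2 : ((u ^ 2 - u + 1 / 6) / 2 - ((u - η + 1) ^ 2 - (u - η + 1) + 1 / 6) / 2) / η
        = u - η / 2 + 1 / 2 - u / η := by
      field_simp; ring
    rw [e2]
    have : u / η ≤ 1 := by rw [div_le_one h0]; exact h.le
    linarith

theorem psi_lower (x : ℝ) {η : ℝ} (h0 : 0 < η) (h1 : η < 1) :
    -(η / 2) + (PB2 (x + η) - PB2 x) / η ≤ psi x := by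
  set u := Int.fract x with hu
  have hu0 := Int.fract_nonneg x
  have hu1 := Int.fract_lt_one x
  rw [← hu] at hu0 hu1
  have hfl := Int.floor_add_fract x
  rcases lt_or_ge (u + η) 1 with h | h
  · have e : Int.fract (x + η) = u + η := by
      rw [Int.fract_eq_iff]
      exact ⟨by linarith, by linarith, ⌊x⌋, by rw [hu]; linarith⟩
    unfold psi PB2
    rw [e, ← hu]
    have e2 : (((u + η) ^ 2 - (u + η) + 1 / 6) / 2 - (u ^ 2 - u + 1 / 6) / 2) / η = u + η / 2 - 1 / 2 := by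
      field_simp; ring
    rw [e2]
    linarith
  · have e : Int.fract (x + η) = u + η - 1 := by
      rw [Int.fract_eq_iff]
      exact ⟨by linarith, by linarith, ⌊x⌋ + 1, by push_cast; rw [hu]; linarith⟩
    unfold psi PB2
    rw [e, ← hu]
    have e2 : (((u + η - 1) ^ 2 - (u + η - 1) + 1 / 6) / 2 - (u ^ 2 - u + 1 / 6) / 2) / η
        = u + η / 2 - 3 / 2 + (1 - u) / η := by
      field_simp; ring
    rw [e2]
    have : (1 - u) / η ≤ 1 := by rw [div_le_one h0]; linarith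
    linarith

theorem re_e (x : ℝ) : (e x).re = Real.cos (2 * Real.pi * x) := by
  unfold e
  rw [Complex.exp_ofReal_mul_I_re]

theorem norm_one_sub_e (x : ℝ) : ‖1 - e x‖ ≤ 2 * Real.pi * |x| := by
  have h := Real.norm_exp_I_mul_ofReal_sub_one_le (x := 2 * Real.pi * x)
  have e1 : Complex.exp (Complex.I * ((2 * Real.pi * x : ℝ) : ℂ)) = e x := by
    unfold e; rw [mul_comm]
  rw [e1, norm_sub_rev] at h
  refine h.trans (le_of_eq ?_)
  rw [Real.norm_eq_abs, abs_mul, abs_of_pos (by positivity : 0 < 2 * Real.pi)]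

/-- one frequency -/
theorem one_freq (G : Finset ℕ) (F : ℕ → ℝ) (y : ℕ → ℝ) (n : ℕ) (a b : ℝ) :
    |∑ m ∈ G, F m * (Real.cos (2 * Real.pi * n * (y m + a)) - Real.cos (2 * Real.pi * n * (y m + b)))|
      ≤ 2 * Real.pi * n * |a - b| * ‖∑ m ∈ G, (F m : ℂ) * e (n * y m)‖ := by
  have h1 : ∑ m ∈ G, F m * (Real.cos (2 * Real.pi * n * (y m + a)) - Real.cos (2 * Real.pi * n * (y m + b)))
      = ((e (n * a) - e (n * b)) * ∑ m ∈ G, (F m : ℂ) * e (n * y m)).re := by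
    rw [mul_sum, Complex.re_sum]
    apply sum_congr rfl
    intro m _
    have e2 : (e (n * a) - e (n * b)) * ((F m : ℂ) * e (n * y m)) =
        (F m : ℂ) * (e (n * (y m + a)) - e (n * (y m + b))) := by
      rw [mul_add, mul_add, e_add, e_add]; ring
    rw [e2, Complex.re_ofReal_mul, Complex.sub_re, re_e, re_e]
    congr 2
    · congr 1; ring
    · congr 1; ring
  rw [h1]
  refine (Complex.abs_re_le_norm _).trans ?_
  rw [norm_mul]
  apply mul_le_mul_of_nonneg_right _ (norm_nonneg _)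
  have e3 : e (n * a) - e (n * b) = e (n * a) * (1 - e (n * (b - a))) := by
    rw [mul_sub, mul_one, ← e_add]; congr 2; ring
  rw [e3, norm_mul, norm_e, one_mul]
  refine (norm_one_sub_e _).trans (le_of_eq ?_)
  rw [abs_mul, abs_of_nonneg (Nat.cast_nonneg n), abs_sub_comm]
  ring

/-- a difference of values of `PB2`, summed -/
theorem PB2_diff (G : Finset ℕ) {F : ℕ → ℝ} (hF0 : ∀ m, 0 ≤ F m) (hF1 : ∀ m, F m ≤ 1) (y : ℕ → ℝ) (a b : ℝ)
    {K : ℕ} (hK : 1 ≤ K) :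
    |∑ m ∈ G, F m * (PB2 (y m + a) - PB2 (y m + b))| ≤ 2 * G.card / K
      + |a - b| * ∑ n ∈ Icc 1 K, 1 / (n : ℝ) * ‖∑ m ∈ G, (F m : ℂ) * e (n * y m)‖ := by
  set c : ℕ → ℝ := fun n => 1 / (2 * Real.pi ^ 2 * (n : ℝ) ^ 2) with hc
  have h1 : ∑ m ∈ G, F m * (PB2 (y m + a) - PB2 (y m + b)) =
      ∑ m ∈ G, F m * ((PB2 (y m + a) - ∑ n ∈ Icc 1 K, Real.cos (2 * Real.pi * n * (y m + a)) / (2 * Real.pi ^ 2 * (n : ℝ) ^ 2))
        - (PB2 (y m + b) - ∑ n ∈ Icc 1 K, Real.cos (2 * Real.pi * n * (y m + b)) / (2 * Real.pi ^ 2 * (n : ℝ) ^ 2)))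
      + ∑ n ∈ Icc 1 K, c n * ∑ m ∈ G, F m * (Real.cos (2 * Real.pi * n * (y m + a)) - Real.cos (2 * Real.pi * n * (y m + b))) := by
    simp_rw [mul_sum]
    rw [sum_comm (s := Icc 1 K), ← sum_add_distrib]
    apply sum_congr rfl
    intro m _
    have e4 : ∀ s : ℝ, ∑ n ∈ Icc 1 K, Real.cos (2 * Real.pi * n * (y m + s)) / (2 * Real.pi ^ 2 * (n : ℝ) ^ 2)
        = ∑ n ∈ Icc 1 K, c n * Real.cos (2 * Real.pi * n * (y m + s)) := by
      intro s
      apply sum_congr rfl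
      intro n _
      rw [hc]; dsimp only; rw [div_eq_mul_one_div, mul_comm]
    rw [e4, e4]
    have e5 : ∑ n ∈ Icc 1 K, c n * (F m * (Real.cos (2 * Real.pi * n * (y m + a)) - Real.cos (2 * Real.pi * n * (y m + b))))
        = F m * (∑ n ∈ Icc 1 K, c n * Real.cos (2 * Real.pi * n * (y m + a)) - ∑ n ∈ Icc 1 K, c n * Real.cos (2 * Real.pi * n * (y m + b))) := by
      rw [← sum_sub_distrib, mul_sum]
      apply sum_congr rfl
      intro n _; ring
    rw [e5]; ring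
  rw [h1]
  refine (abs_add_le _ _).trans (add_le_add ?_ ?_)
  · refine (abs_sum_le_sum_abs _ _).trans ?_
    have h2 : ∀ m ∈ G, |F m * ((PB2 (y m + a) - ∑ n ∈ Icc 1 K, Real.cos (2 * Real.pi * n * (y m + a)) / (2 * Real.pi ^ 2 * (n : ℝ) ^ 2))
        - (PB2 (y m + b) - ∑ n ∈ Icc 1 K, Real.cos (2 * Real.pi * n * (y m + b)) / (2 * Real.pi ^ 2 * (n : ℝ) ^ 2)))| ≤ 2 / K := by
      intro m _
      rw [abs_mul, abs_of_nonneg (hF0 m)]
      have a1 := PB2_trunc (y m + a) hK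
      have a2 := PB2_trunc (y m + b) hK
      have a3 := abs_sub (PB2 (y m + a) - ∑ n ∈ Icc 1 K, Real.cos (2 * Real.pi * n * (y m + a)) / (2 * Real.pi ^ 2 * (n : ℝ) ^ 2))
        (PB2 (y m + b) - ∑ n ∈ Icc 1 K, Real.cos (2 * Real.pi * n * (y m + b)) / (2 * Real.pi ^ 2 * (n : ℝ) ^ 2))
      have a4 : (2 : ℝ) / K = 1 / K + 1 / K := by ring
      have a5 := hF1 m
      have a6 := hF0 m
      rw [a4]
      nlinarith [abs_nonneg ((PB2 (y m + a) - ∑ n ∈ Icc 1 K, Real.cos (2 * Real.pi * n * (y m + a)) / (2 * Real.pi ^ 2 * (n : ℝ) ^ 2))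
        - (PB2 (y m + b) - ∑ n ∈ Icc 1 K, Real.cos (2 * Real.pi * n * (y m + b)) / (2 * Real.pi ^ 2 * (n : ℝ) ^ 2)))]
    refine (sum_le_sum h2).trans ?_
    rw [sum_const, nsmul_eq_mul]
    apply le_of_eq; ring
  · refine (abs_sum_le_sum_abs _ _).trans ?_
    rw [mul_sum]
    apply sum_le_sum
    intro n hn
    rw [mem_Icc] at hn
    have hn1 : (1 : ℝ) ≤ n := by exact_mod_cast hn.1
    have hc0 : 0 ≤ c n := by rw [hc]; positivity
    rw [abs_mul, abs_of_nonneg hc0]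
    have h3 := mul_le_mul_of_nonneg_left (one_freq G F y n a b) hc0
    refine h3.trans ?_
    have h4 : c n * (2 * Real.pi * n * |a - b| * ‖∑ m ∈ G, (F m : ℂ) * e (n * y m)‖)
        = (1 / Real.pi) * (|a - b| * (1 / (n : ℝ) * ‖∑ m ∈ G, (F m : ℂ) * e (n * y m)‖)) := by
      rw [hc]; dsimp only
      have hpi : Real.pi ≠ 0 := Real.pi_ne_zero
      have hn0 : (n : ℝ) ≠ 0 := by linarith
      field_simp
    rw [h4]
    have h5 : 1 / Real.pi ≤ 1 := by
      rw [div_le_one Real.pi_pos]; linarith [Real.pi_gt_three]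
    have h6 : 0 ≤ |a - b| * (1 / (n : ℝ) * ‖∑ m ∈ G, (F m : ℂ) * e (n * y m)‖) := by positivity
    calc _ ≤ 1 * (|a - b| * (1 / (n : ℝ) * ‖∑ m ∈ G, (F m : ℂ) * e (n * y m)‖)) := mul_le_mul_of_nonneg_right h5 h6
      _ = _ := one_mul _

/-- sums of the sawtooth function -/
theorem psi_sum (G : Finset ℕ) {F : ℕ → ℝ} (hF0 : ∀ m, 0 ≤ F m) (hF1 : ∀ m, F m ≤ 1) (y : ℕ → ℝ)
    {K : ℕ} (hK : 1 ≤ K) {η : ℝ} (h0 : 0 < η) (h1 : η < 1) :
    |∑ m ∈ G, F m * psi (y m)| ≤ η * G.card + 2 * G.card / (η * K)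
      + ∑ n ∈ Icc 1 K, 1 / (n : ℝ) * ‖∑ m ∈ G, (F m : ℂ) * e (n * y m)‖ := by
  set B := ∑ n ∈ Icc 1 K, 1 / (n : ℝ) * ‖∑ m ∈ G, (F m : ℂ) * e (n * y m)‖ with hB
  have hcard : ∑ m ∈ G, F m ≤ G.card := by
    refine (sum_le_sum fun m _ => hF1 m).trans ?_
    simp
  have hsum0 : 0 ≤ ∑ m ∈ G, F m := sum_nonneg fun m _ => hF0 m
  have hcK : ∀ a b : ℝ, |a - b| = η → |∑ m ∈ G, F m * ((PB2 (y m + a) - PB2 (y m + b)) / η)| ≤ 2 * G.card / (η * K) + B := by
    intro a b hab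
    have h2 := PB2_diff G hF0 hF1 y a b hK
    rw [hab, ← hB] at h2
    have e1 : ∑ m ∈ G, F m * ((PB2 (y m + a) - PB2 (y m + b)) / η) = (∑ m ∈ G, F m * (PB2 (y m + a) - PB2 (y m + b))) / η := by
      rw [sum_div]; exact sum_congr rfl fun m _ => by ring
    rw [e1, abs_div, abs_of_pos h0, div_le_iff₀ h0]
    refine h2.trans (le_of_eq ?_)
    have hK0 : (K : ℝ) ≠ 0 := by
      have : (0 : ℝ) < K := by exact_mod_cast hK
      linarith
    field_simp
  have hlow := hcK η 0 (by rw [sub_zero, abs_of_pos h0])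
  have hup := hcK 0 (-η) (by rw [zero_sub, neg_neg, abs_of_pos h0])
  rw [abs_le]
  constructor
  · have h2 : ∑ m ∈ G, F m * (-(η / 2) + (PB2 (y m + η) - PB2 (y m + 0)) / η) ≤ ∑ m ∈ G, F m * psi (y m) := by
      apply sum_le_sum
      intro m _
      have := psi_lower (y m) h0 h1
      rw [add_zero]
      exact mul_le_mul_of_nonneg_left this (hF0 m)
    have e2 : ∑ m ∈ G, F m * (-(η / 2) + (PB2 (y m + η) - PB2 (y m + 0)) / η)
        = -(η / 2) * ∑ m ∈ G, F m + ∑ m ∈ G, F m * ((PB2 (y m + η) - PB2 (y m + 0)) / η) := by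
      rw [mul_sum, ← sum_add_distrib]
      exact sum_congr rfl fun m _ => by ring
    rw [e2] at h2
    have h3 := (abs_le.1 hlow).1
    have h4 : (η / 2) * ∑ m ∈ G, F m ≤ η * G.card := by nlinarith
    linarith
  · have h2 : ∑ m ∈ G, F m * psi (y m) ≤ ∑ m ∈ G, F m * (η / 2 + (PB2 (y m + 0) - PB2 (y m + -η)) / η) := by
      apply sum_le_sum
      intro m _
      have := psi_upper (y m) h0 h1
      rw [add_zero, ← sub_eq_add_neg]
      exact mul_le_mul_of_nonneg_left this (hF0 m)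
    have e2 : ∑ m ∈ G, F m * (η / 2 + (PB2 (y m + 0) - PB2 (y m + -η)) / η)
        = (η / 2) * ∑ m ∈ G, F m + ∑ m ∈ G, F m * ((PB2 (y m + 0) - PB2 (y m + -η)) / η) := by
      rw [mul_sum, ← sum_add_distrib]
      exact sum_congr rfl fun m _ => by ring
    rw [e2] at h2
    have h3 := (abs_le.1 hup).2
    have h4 : (η / 2) * ∑ m ∈ G, F m ≤ η * G.card := by nlinarith
    linarith

end Pool.Agent.Y965.PS
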