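import Pool.Agent.Y965.PS.Fin

/-! From the integers `m` with a power `n ^ c` in `[m, m + 1)` to the sequence `⌊n ^ c⌋`; partial summation. -/

set_option autoImplicit false

namespace Pool.Agent.Y965.PS

open Finset

/-- `(x ^ c + 1) ^ (1 / c) ≤ x + 1` and related facts -/
theorem pow_gap {c : ℝ} (hc : 1 ≤ c) {x : ℝ} (hx : 0 ≤ x) : x ^ c + 1 ≤ (x + 1) ^ c := by
  have := Real.add_rpow_le_rpow_add hx zero_le_one hc
  rwa [Real.one_rpow] at this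

theorem fiber {c : ℝ} (hc : 1 ≤ c) (X m : ℕ) (hm1 : 1 ≤ m) (hm : m ≤ ⌊(X : ℝ) ^ c⌋₊) :
    (Icc 1 X).filter (fun n : ℕ => ⌊(n : ℝ) ^ c⌋₊ = m) = Ico ⌈(m : ℝ) ^ (1 / c)⌉₊ ⌈((m : ℝ) + 1) ^ (1 / c)⌉₊ := by
  have hc0 : 0 < c := by linarith
  have key : ∀ (y : ℝ) (n : ℕ), 0 ≤ y → (y ≤ (n : ℝ) ^ c ↔ y ^ (1 / c) ≤ n) := by
    intro y n hy
    rw [one_div]
    exact (Real.rpow_inv_le_iff_of_pos hy (Nat.cast_nonneg n) hc0).symm
  have hm1R : (1 : ℝ) ≤ m := by exact_mod_cast hm1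
  ext n
  rw [mem_filter, mem_Icc, mem_Ico, Nat.ceil_le, Nat.lt_ceil, Nat.floor_eq_iff (by positivity),
    key _ n (Nat.cast_nonneg m)]
  have h2 : (n : ℝ) ^ c < m + 1 ↔ (n : ℝ) < ((m : ℝ) + 1) ^ (1 / c) := by
    rw [← not_le, ← not_le, not_iff_not]
    exact key _ n (by positivity)
  rw [h2]
  constructor
  · rintro ⟨-, h⟩; exact h
  · rintro ⟨h3, h4⟩
    refine ⟨⟨?_, ?_⟩, h3, h4⟩
    · have h5 : (1 : ℝ) ≤ (m : ℝ) ^ (1 / c) := Real.one_le_rpow hm1R (by positivity)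
      exact_mod_cast h5.trans h3
    · by_contra hcon
      push Not at hcon
      have h5 : (X : ℝ) + 1 ≤ n := by exact_mod_cast hcon
      have h6 : ((X : ℝ) + 1) ^ c ≤ (n : ℝ) ^ c := Real.rpow_le_rpow (by positivity) h5 hc0.le
      have h7 := pow_gap hc (Nat.cast_nonneg X)
      have h8 : (m : ℝ) ≤ (X : ℝ) ^ c := (Nat.le_floor_iff (by positivity)).1 hm
      have h9 := h2.2 h4
      linarith

theorem conv {c : ℝ} (hc : 1 ≤ c) (X : ℕ) (F : ℤ → ℝ) :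
    ∑ n ∈ Icc 1 X, F ⌊(n : ℝ) ^ c⌋ = ∑ m ∈ Icc 1 ⌊(X : ℝ) ^ c⌋₊,
      F m * ((⌈((m : ℝ) + 1) ^ (1 / c)⌉ : ℝ) - ⌈(m : ℝ) ^ (1 / c)⌉) := by
  have hc0 : 0 < c := by linarith
  have h1 : ∀ n ∈ Icc 1 X, ⌊(n : ℝ) ^ c⌋₊ ∈ Icc 1 ⌊(X : ℝ) ^ c⌋₊ := by
    intro n hn
    rw [mem_Icc] at hn
    rw [mem_Icc]
    have hn1 : (1 : ℝ) ≤ n := by exact_mod_cast hn.1
    constructor
    · apply Nat.le_floor
      push_cast
      exact Real.one_le_rpow hn1 hc0.le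
    · apply Nat.floor_le_floor
      exact Real.rpow_le_rpow (by positivity) (by exact_mod_cast hn.2) hc0.le
  rw [← sum_fiberwise_of_maps_to h1]
  apply sum_congr rfl
  intro m hm
  rw [mem_Icc] at hm
  have h2 : ∀ n ∈ (Icc 1 X).filter (fun n : ℕ => ⌊(n : ℝ) ^ c⌋₊ = m), F ⌊(n : ℝ) ^ c⌋ = F m := by
    intro n hn
    rw [mem_filter] at hn
    congr 1
    have h3 : (0 : ℝ) ≤ (n : ℝ) ^ c := by positivity
    rw [← hn.2, Int.natCast_floor_eq_floor h3]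
  rw [sum_congr rfl h2, sum_const, nsmul_eq_mul, fiber hc X m hm.1 hm.2, Nat.card_Ico, mul_comm]
  congr 1
  have hmono : (m : ℝ) ^ (1 / c) ≤ ((m : ℝ) + 1) ^ (1 / c) :=
    Real.rpow_le_rpow (Nat.cast_nonneg _) (by linarith) (by positivity)
  rw [Nat.cast_sub (Nat.ceil_mono hmono)]
  have h4 : ∀ y : ℝ, 0 ≤ y → ((⌈y⌉₊ : ℕ) : ℝ) = (⌈y⌉ : ℝ) := by
    intro y hy
    have h5 : ((⌈y⌉₊ : ℕ) : ℤ) = ⌈y⌉ := Int.natCast_ceil_eq_ceil hy
    rw [← h5]; norm_cast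
  rw [h4 _ (by positivity), h4 _ (by positivity)]

/-- the density of the sequence -/
noncomputable def ell (γ : ℝ) (m : ℕ) : ℝ := ((m : ℝ) + 1) ^ γ - (m : ℝ) ^ γ

theorem ell_anti {γ : ℝ} (hγ0 : 0 < γ) (hγ1 : γ < 1) {m : ℕ} (hm : 1 ≤ m) : ell γ (m + 1) ≤ ell γ m := by
  have hm0 : (0 : ℝ) < m := by exact_mod_cast hm
  have h := (DD_bounds hγ0 hγ1 (s := 1) (h := 1) hm0 zero_le_one zero_le_one).1
  have h2 : 0 ≤ 1 * 1 * (γ * (1 - γ)) * ((m : ℝ) + 1 + 1) ^ (γ - 2) := by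
    have : 0 < γ * (1 - γ) := mul_pos hγ0 (by linarith)
    positivity
  unfold DD at h
  unfold ell
  push_cast
  linarith

theorem ell_sum (γ : ℝ) (M : ℕ) : ∑ m ∈ Icc 1 M, ell γ m = ((M : ℝ) + 1) ^ γ - 1 := by
  induction M with
  | zero => simp
  | succ M ih =>
    rw [Finset.sum_Icc_succ_top (by omega), ih]
    unfold ell
    push_cast
    ring

theorem ell_nonneg {γ : ℝ} (hγ0 : 0 < γ) (m : ℕ) : 0 ≤ ell γ m := by
  unfold ell
  have : (m : ℝ) ^ γ ≤ ((m : ℝ) + 1) ^ γ := Real.rpow_le_rpow (Nat.cast_nonneg _) (by linarith) hγ0.le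
  linarith

/-- partial summation -/
theorem abel {γ : ℝ} (hγ0 : 0 < γ) (hγ1 : γ < 1) {a : ℕ → ℝ} {δ ε C : ℝ} (hε : 0 ≤ ε) (hC : 0 ≤ C)
    (h : ∀ m : ℕ, |∑ k ∈ Icc 1 m, a k - δ * m| ≤ ε * m + C) (M : ℕ) :
    |∑ m ∈ Icc 1 M, a m * ell γ m - δ * (((M : ℝ) + 1) ^ γ - 1)| ≤ ε * ((M : ℝ) + 1) ^ γ + C := by
  set E : ℕ → ℝ := fun m => ∑ k ∈ Icc 1 m, a k - δ * m with hE
  have id1 : ∀ M : ℕ, ∑ m ∈ Icc 1 M, a m * ell γ m - δ * (((M : ℝ) + 1) ^ γ - 1)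
      = E M * ell γ (M + 1) + ∑ m ∈ Icc 1 M, E m * (ell γ m - ell γ (m + 1)) := by
    intro M
    induction M with
    | zero => simp [hE]
    | succ M ih =>
      rw [Finset.sum_Icc_succ_top (by omega), Finset.sum_Icc_succ_top (by omega)]
      have e1 : E (M + 1) = E M + (a (M + 1) - δ) := by
        rw [hE]; dsimp only
        rw [Finset.sum_Icc_succ_top (by omega)]; push_cast; ring
      have e2 : (((M + 1 : ℕ) : ℝ) + 1) ^ γ = ((M : ℝ) + 1) ^ γ + ell γ (M + 1) := by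
        unfold ell; push_cast; ring
      rw [e2]
      have e3 : ∑ m ∈ Icc 1 M, a m * ell γ m + a (M + 1) * ell γ (M + 1)
          - δ * (((M : ℝ) + 1) ^ γ + ell γ (M + 1) - 1) = (∑ m ∈ Icc 1 M, a m * ell γ m - δ * (((M : ℝ) + 1) ^ γ - 1))
          + (a (M + 1) - δ) * ell γ (M + 1) := by ring
      rw [e3, ih, e1]
      ring
  have id2 : ∀ M : ℕ, ε * (((M : ℝ) + 1) ^ γ - 1) + C * ell γ 1
      = (ε * M + C) * ell γ (M + 1) + ∑ m ∈ Icc 1 M, (ε * m + C) * (ell γ m - ell γ (m + 1)) := by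
    intro M
    induction M with
    | zero => simp
    | succ M ih =>
      rw [Finset.sum_Icc_succ_top (by omega)]
      have e2 : (((M + 1 : ℕ) : ℝ) + 1) ^ γ = ((M : ℝ) + 1) ^ γ + ell γ (M + 1) := by
        unfold ell; push_cast; ring
      rw [e2]
      have e3 : ε * (((M : ℝ) + 1) ^ γ + ell γ (M + 1) - 1) + C * ell γ 1
        = (ε * (((M : ℝ) + 1) ^ γ - 1) + C * ell γ 1) + ε * ell γ (M + 1) := by ring
      rw [e3, ih]
      push_cast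
      ring
  rw [id1]
  have h1 : |E M * ell γ (M + 1) + ∑ m ∈ Icc 1 M, E m * (ell γ m - ell γ (m + 1))|
      ≤ (ε * M + C) * ell γ (M + 1) + ∑ m ∈ Icc 1 M, (ε * m + C) * (ell γ m - ell γ (m + 1)) := by
    refine (abs_add_le _ _).trans (add_le_add ?_ ?_)
    · rw [abs_mul, abs_of_nonneg (ell_nonneg hγ0 _)]
      exact mul_le_mul_of_nonneg_right (h M) (ell_nonneg hγ0 _)
    · refine (abs_sum_le_sum_abs _ _).trans (sum_le_sum fun m hm => ?_)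
      rw [mem_Icc] at hm
      have h2 : 0 ≤ ell γ m - ell γ (m + 1) := by linarith [ell_anti hγ0 hγ1 hm.1]
      rw [abs_mul, abs_of_nonneg h2]
      exact mul_le_mul_of_nonneg_right (h m) h2
  rw [← id2] at h1
  refine h1.trans ?_
  have h3 : ell γ 1 ≤ 1 := by
    unfold ell
    have e : ((1 : ℕ) : ℝ) = 1 := by norm_num
    rw [e, Real.one_rpow]
    have : (1 + 1 : ℝ) ^ γ ≤ (1 + 1 : ℝ) ^ (1 : ℝ) := Real.rpow_le_rpow_of_exponent_le (by norm_num) hγ1.le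
    rw [Real.rpow_one] at this
    linarith
  have h4 : C * ell γ 1 ≤ C * 1 := mul_le_mul_of_nonneg_left h3 hC
  linarith

end Pool.Agent.Y965.PS
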