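import Pool.Agent.Y965.PS.Par

/-! The transfer inequality for the Piatetski-Shapiro sequences: assembly. -/

set_option autoImplicit false

namespace Pool.Agent.Y965.PS

open Finset Pool.Agent.H469R2.NK

variable {d : ℤ}

theorem GS_card (u : ℕ) (R : ℝ) (N1 N : ℕ) : ((GS d u R N1 N).card : ℝ) ≤ N := by
  classical
  have h : GS d u R N1 N ⊆ Icc 1 N := by
    intro m hm
    rw [mem_GS] at hm
    rw [mem_Icc]; omega
  have h1 := card_le_card h
  rw [Nat.card_Icc, Nat.add_sub_cancel] at h1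
  exact_mod_cast h1

theorem psi_good (hd : d = 1 ∨ d = -1) {x : ℝ} (hx0 : 0 < x) (hx1 : x < 1 / 101) :
    ∃ C : ℝ, 1 ≤ C ∧ ∀ N : ℕ, 100 ≤ Real.log N → ∀ i : ℕ, i ≤ 1 → ∀ F : ℤ → ℝ, Sync d F → (∀ y, 0 ≤ F y) →
      |∑ m ∈ GS d ⌊3 * Real.log N / 16⌋₊ (Real.exp (0.0125 * Real.log N)) ⌊Real.exp (0.99 * Real.log N)⌋₊ N,
        F m * psi (-(((m : ℝ) + i) ^ (1 - x)))| ≤ C * Real.exp ((1 - x - 1 / 4000) * Real.log N) := by
  obtain ⟨C, hC, hE⟩ := En_bound hd hx0 hx1
  refine ⟨3 + C * 8000 ^ 2, by nlinarith, ?_⟩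
  intro N hL i hi F hF hF0
  have hEn := fun n hn hnK => hE N hL n i hn hi hnK F hF
  set L := Real.log N with hLdef
  have hNpos : (0 : ℝ) < N := by
    by_contra h
    have h0 : (N : ℝ) = 0 := le_antisymm (not_lt.1 h) (Nat.cast_nonneg _)
    rw [hLdef, h0, Real.log_zero] at hL
    linarith
  have hexp : Real.exp L = N := Real.exp_log hNpos
  set G := GS d ⌊3 * L / 16⌋₊ (Real.exp (0.0125 * L)) ⌊Real.exp (0.99 * L)⌋₊ N with hG
  have hGc : (G.card : ℝ) ≤ Real.exp L := by rw [hexp]; exact GS_card _ _ _ _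
  set K := ⌈Real.exp ((2 * x + 1 / 2000) * L)⌉₊ with hK
  have hKe : 1 ≤ Real.exp ((2 * x + 1 / 2000) * L) := Real.one_le_exp (by positivity)
  have hK1 : Real.exp ((2 * x + 1 / 2000) * L) ≤ K := Nat.le_ceil _
  have hK2 : (K : ℝ) ≤ 2 * Real.exp ((2 * x + 1 / 2000) * L) := by
    have := Nat.ceil_lt_add_one (Real.exp_pos ((2 * x + 1 / 2000) * L)).le
    linarith
  have hK3 : (1 : ℝ) ≤ K := hKe.trans hK1
  have hK4 : 1 ≤ K := by exact_mod_cast hK3
  set η := Real.exp (-((x + 1 / 4000) * L)) with hη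
  have hη0 : 0 < η := Real.exp_pos _
  have hη1 : η < 1 := by
    rw [hη, Real.exp_lt_one_iff]
    have : 0 < (x + 1 / 4000) * L := by positivity
    linarith
  have key := psi_sum G (F := fun m : ℕ => F m) (fun m => hF0 _) (fun m => (abs_le.1 (hF.1 _)).2)
    (fun m : ℕ => -(((m : ℝ) + i) ^ (1 - x))) hK4 hη0 hη1
  refine key.trans ?_
  have hconj : ∀ n : ℕ, ‖∑ m ∈ G, (F m : ℂ) * e (n * (-(((m : ℝ) + i) ^ (1 - x))))‖
      = ‖∑ m ∈ G, (F m : ℂ) * e (n * ((m : ℝ) + i) ^ (1 - x))‖ := by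
    intro n
    have h1 : ∑ m ∈ G, (F m : ℂ) * e (n * (-(((m : ℝ) + i) ^ (1 - x))))
        = (starRingEnd ℂ) (∑ m ∈ G, (F m : ℂ) * e (n * ((m : ℝ) + i) ^ (1 - x))) := by
      rw [map_sum]
      apply sum_congr rfl
      intro m _
      rw [map_mul, Complex.conj_ofReal, conj_e]
      congr 2; ring
    rw [h1, RCLike.norm_conj]
  set E := Real.exp ((1 - x - 1 / 4000) * L) with hEdef
  have t1 : η * G.card ≤ E := by
    calc η * G.card ≤ η * Real.exp L := mul_le_mul_of_nonneg_left hGc hη0.le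
      _ = E := by rw [hη, hEdef, ← Real.exp_add]; congr 1; ring
  have t2 : 2 * (G.card : ℝ) / (η * K) ≤ 2 * E := by
    rw [div_le_iff₀ (by positivity)]
    have h1 : E * (η * Real.exp ((2 * x + 1 / 2000) * L)) = Real.exp L := by
      rw [hη, hEdef, ← Real.exp_add, ← Real.exp_add]; congr 1; ring
    have h2 : E * (η * Real.exp ((2 * x + 1 / 2000) * L)) ≤ E * (η * K) := by
      have : 0 < E := Real.exp_pos _
      gcongr
    linarith
  have t3 : ∑ n ∈ Icc 1 K, 1 / (n : ℝ) * ‖∑ m ∈ G, (F m : ℂ) * e (n * (-(((m : ℝ) + i) ^ (1 - x))))‖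
      ≤ C * 8000 ^ 2 * E := by
    set B := C * (L * Real.exp ((0.98453125 + x / 2) * L)) with hB
    have hB0 : 0 ≤ B := by positivity
    have h1 : ∀ n ∈ Icc 1 K, 1 / (n : ℝ) * ‖∑ m ∈ G, (F m : ℂ) * e (n * (-(((m : ℝ) + i) ^ (1 - x))))‖ ≤ 1 / (n : ℝ) * B := by
      intro n hn
      rw [mem_Icc] at hn
      rw [hconj]
      apply mul_le_mul_of_nonneg_left _ (by positivity)
      exact hEn n hn.1 ((by exact_mod_cast hn.2 : (n : ℝ) ≤ K).trans hK2)
    refine (sum_le_sum h1).trans ?_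
    rw [← sum_mul]
    have h2 : ∑ n ∈ Icc 1 K, 1 / (n : ℝ) ≤ L := by
      refine (harm K).trans ?_
      have h3 : Real.log K ≤ Real.log (2 * Real.exp ((2 * x + 1 / 2000) * L)) := Real.log_le_log (by linarith) hK2
      rw [Real.log_mul (by norm_num) (Real.exp_pos _).ne', Real.log_exp] at h3
      have h4 := Real.log_two_lt_d9
      nlinarith
    have h5 : L ^ 2 ≤ 8000 ^ 2 * Real.exp (1 / 4000 * L) := by
      have h6 : L / 8000 ≤ Real.exp (L / 8000) := by linarith [Real.add_one_le_exp (L / 8000)]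
      have h7 : (L / 8000) ^ 2 ≤ Real.exp (L / 8000) ^ 2 := pow_le_pow_left₀ (by linarith) h6 2
      have h8 : Real.exp (L / 8000) ^ 2 = Real.exp (1 / 4000 * L) := by
        rw [← Real.exp_nat_mul]; congr 1; push_cast; ring
      rw [h8] at h7
      nlinarith
    calc (∑ n ∈ Icc 1 K, 1 / (n : ℝ)) * B ≤ L * B := mul_le_mul_of_nonneg_right h2 hB0
      _ = C * L ^ 2 * Real.exp ((0.98453125 + x / 2) * L) := by rw [hB]; ring
      _ ≤ C * (8000 ^ 2 * Real.exp (1 / 4000 * L)) * Real.exp ((0.98453125 + x / 2) * L) := by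
          gcongr
      _ = C * 8000 ^ 2 * Real.exp (1 / 4000 * L + (0.98453125 + x / 2) * L) := by rw [Real.exp_add]; ring
      _ ≤ C * 8000 ^ 2 * E := by
          apply mul_le_mul_of_nonneg_left _ (by positivity)
          rw [hEdef]
          apply Real.exp_le_exp.2
          nlinarith
  calc _ ≤ E + 2 * E + C * 8000 ^ 2 * E := add_le_add (add_le_add t1 t2) t3
    _ = _ := by ring

open Classical in
/-- THE TRANSFER INEQUALITY -/
theorem main_bound (hd : d = 1 ∨ d = -1) {x : ℝ} (hx0 : 0 < x) (hx1 : x < 1 / 101) :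
    ∃ C : ℝ, 1 ≤ C ∧ ∀ N : ℕ, 1 ≤ N → ∀ F : ℤ → ℝ, Sync d F →
      |∑ m ∈ Icc 1 N, F m * ww (1 - x) m| ≤ C * (N : ℝ) ^ (1 - x - 1 / 4000) := by
  obtain ⟨C, hC, hP⟩ := psi_good hd hx0 hx1
  refine ⟨Real.exp 100 + 6 * C + 20000, by have := Real.exp_pos 100; linarith, ?_⟩
  intro N hN F hF
  have hNpos : (0 : ℝ) < N := by exact_mod_cast hN
  set L := Real.log N with hLdef
  have hexp : Real.exp L = N := Real.exp_log hNpos
  have hE : (N : ℝ) ^ (1 - x - 1 / 4000) = Real.exp ((1 - x - 1 / 4000) * L) := by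
    rw [← hexp, ← Real.exp_mul]; congr 1; ring
  rw [hE]
  set E := Real.exp ((1 - x - 1 / 4000) * L) with hEdef
  have hE0 : 0 < E := Real.exp_pos _
  rcases lt_or_ge L 100 with hL | hL
  · -- small `N`
    have hL0 : 0 ≤ L := Real.log_natCast_nonneg N
    have h1 : |∑ m ∈ Icc 1 N, F m * ww (1 - x) m| ≤ N := by
      refine (abs_sum_le_sum_abs _ _).trans ?_
      have h2 : ∀ m ∈ Icc 1 N, |F m * ww (1 - x) m| ≤ 1 := by
        intro m _
        rw [abs_mul]
        nlinarith [hF.1 m, ww_le_one (1 - x) m, abs_nonneg (F m), abs_nonneg (ww (1 - x) m)]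
      refine (sum_le_sum h2).trans ?_
      simp
    have h3 : (N : ℝ) ≤ Real.exp 100 := by rw [← hexp]; exact Real.exp_le_exp.2 hL.le
    have h4 : 1 ≤ E := by
      rw [hEdef]; apply Real.one_le_exp
      apply mul_nonneg _ hL0
      linarith
    have h5 := Real.exp_pos 100
    nlinarith
  have hG := fun i hi F hF hF0 => hP N hL i hi F hF hF0
  set u := ⌊3 * L / 16⌋₊ with hu
  have hu1 : (u : ℝ) ≤ 3 * L / 16 := Nat.floor_le (by linarith)
  have hu2 : 3 * L / 16 < u + 1 := Nat.lt_floor_add_one _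
  set R := Real.exp (0.0125 * L) with hR
  have hR0 : 0 < R := Real.exp_pos _
  set N1 := ⌊Real.exp (0.99 * L)⌋₊ with hN1
  have hE99 : 1 ≤ Real.exp (0.99 * L) := Real.one_le_exp (by linarith)
  have hN1a : (N1 : ℝ) ≤ Real.exp (0.99 * L) := Nat.floor_le (by positivity)
  have hN1N : N1 ≤ N := by
    have h1 : (N1 : ℝ) ≤ N := by
      rw [← hexp]; exact hN1a.trans (Real.exp_le_exp.2 (by linarith))
    exact_mod_cast h1
  set G := GS d u R N1 N with hGdef
  -- decomposition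
  have hdec : ∑ m ∈ Icc 1 N, F m * ww (1 - x) m = ∑ m ∈ Icc 1 N1, F m * ww (1 - x) m
      + (∑ m ∈ G, F m * ww (1 - x) m + ∑ m ∈ (Ioc N1 N).filter (fun m : ℕ => ¬ Good d u R (m : ℤ)), F m * ww (1 - x) m) := by
    have h1 : Icc 1 N = Icc 1 N1 ∪ Ioc N1 N := by
      ext m; simp only [mem_union, mem_Icc, mem_Ioc]; omega
    rw [h1, sum_union]
    · congr 1
      rw [hGdef]; unfold GS
      rw [sum_filter_add_sum_filter_not]
    · rw [Finset.disjoint_left]
      intro m hm hm'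
      rw [mem_Icc] at hm
      rw [mem_Ioc] at hm'
      omega
  -- small part
  have p1 : |∑ m ∈ Icc 1 N1, F m * ww (1 - x) m| ≤ 4 * E := by
    refine (ww_small (by linarith : (0 : ℝ) < 1 - x) hF.1 N1).trans ?_
    have h1 : ((N1 : ℝ) + 1) ^ (1 - x) ≤ (2 * Real.exp (0.99 * L)) ^ (1 - x) :=
      Real.rpow_le_rpow (by positivity) (by linarith) (by linarith)
    have h2 : (2 * Real.exp (0.99 * L)) ^ (1 - x) ≤ 2 * E := by
      rw [Real.mul_rpow (by norm_num) (Real.exp_pos _).le, ← Real.exp_mul]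
      have h3 : (2 : ℝ) ^ (1 - x) ≤ 2 := by
        calc (2 : ℝ) ^ (1 - x) ≤ (2 : ℝ) ^ (1 : ℝ) := Real.rpow_le_rpow_of_exponent_le (by norm_num) (by linarith)
          _ = 2 := by norm_num
      have h4 : Real.exp (0.99 * L * (1 - x)) ≤ E := by
        rw [hEdef]; apply Real.exp_le_exp.2; nlinarith
      exact mul_le_mul h3 h4 (Real.exp_pos _).le (by norm_num)
    linarith
  -- bad part
  have p2 : |∑ m ∈ (Ioc N1 N).filter (fun m : ℕ => ¬ Good d u R (m : ℤ)), F m * ww (1 - x) m| ≤ 10000 * E := by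
    refine (abs_sum_le_sum_abs _ _).trans ?_
    have h2 : ∀ m ∈ (Ioc N1 N).filter (fun m : ℕ => ¬ Good d u R (m : ℤ)), |F m * ww (1 - x) m| ≤ 1 := by
      intro m _
      rw [abs_mul]
      nlinarith [hF.1 m, ww_le_one (1 - x) m, abs_nonneg (F m), abs_nonneg (ww (1 - x) m)]
    refine (sum_le_sum h2).trans ?_
    rw [sum_const, nsmul_eq_mul, mul_one]
    have hq : 2 ^ (5 * u) ≤ N := by
      have h1 : ((2 : ℝ) ^ (5 * u)) ≤ N := by
        rw [pow_mul, show ((2 : ℝ) ^ 5) = 32 by norm_num, ← hexp]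
        refine (pow_exp_le (by norm_num) exp_c4 u).trans (Real.exp_le_exp.2 ?_)
        linarith
      exact_mod_cast h1
    have h3 : (((Ioc N1 N).filter (fun m : ℕ => ¬ Good d u R (m : ℤ))).card : ℝ)
        ≤ (((Icc 1 N).filter fun m : ℕ => ¬ Good d u R (m : ℤ)).card : ℝ) := by
      have : ((Ioc N1 N).filter (fun m : ℕ => ¬ Good d u R (m : ℤ))) ⊆ ((Icc 1 N).filter fun m : ℕ => ¬ Good d u R (m : ℤ)) := by
        intro m hm
        rw [mem_filter, mem_Ioc] at hm
        rw [mem_filter, mem_Icc]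
        exact ⟨by omega, hm.2⟩
      exact_mod_cast card_le_card this
    refine h3.trans ((bad_count u hR0 N hq).trans ?_)
    have g1 : N * (3125 / 3456 : ℝ) ^ u ≤ 2 * E := by
      have g2 : (3125 / 3456 : ℝ) ^ u ≤ Real.exp (-0.08 * u) := pow_exp_le (by norm_num) c2' u
      calc (N : ℝ) * (3125 / 3456) ^ u ≤ N * Real.exp (-0.08 * u) := mul_le_mul_of_nonneg_left g2 hNpos.le
        _ = Real.exp (L + -0.08 * u) := by rw [Real.exp_add, hexp]
        _ ≤ Real.exp (0.08 + (1 - x - 1 / 4000) * L) := Real.exp_le_exp.2 (by nlinarith)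
        _ = Real.exp 0.08 * E := by rw [Real.exp_add]
        _ ≤ 2 * E := by
          apply mul_le_mul_of_nonneg_right _ hE0.le
          exact exp_c2.trans (by norm_num)
    have g3 : N * (5 * (u : ℝ) / (4 * R)) ≤ 1000 * E := by
      have g4 : (1 : ℝ) / R = Real.exp (-0.0125 * L) := by
        rw [hR, one_div, ← Real.exp_neg]; congr 1; ring
      have g5 : L ≤ 4000 * Real.exp (1 / 4000 * L) := by
        have h6 := Real.add_one_le_exp (1 / 4000 * L)
        linarith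
      calc N * (5 * (u : ℝ) / (4 * R)) = (5 / 4) * u * (N * (1 / R)) := by field_simp
        _ = (5 / 4) * u * Real.exp (L + -0.0125 * L) := by rw [g4, Real.exp_add, hexp]
        _ ≤ (5 / 4) * (3 * L / 16) * Real.exp (L + -0.0125 * L) := by gcongr
        _ = (15 / 64) * L * Real.exp (L + -0.0125 * L) := by ring
        _ ≤ (15 / 64) * (4000 * Real.exp (1 / 4000 * L)) * Real.exp (L + -0.0125 * L) := by gcongr
        _ = (15 / 64) * 4000 * Real.exp (1 / 4000 * L + (L + -0.0125 * L)) := by rw [Real.exp_add (1 / 4000 * L)]; ring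
        _ ≤ (15 / 64) * 4000 * E := by
            apply mul_le_mul_of_nonneg_left _ (by norm_num)
            rw [hEdef]
            apply Real.exp_le_exp.2
            nlinarith
        _ ≤ 1000 * E := by nlinarith
    have e1 : 2 * (N : ℝ) * (2 * (3125 / 3456) ^ u + 5 * u / (4 * R))
        = 4 * (N * (3125 / 3456 : ℝ) ^ u) + 2 * (N * (5 * (u : ℝ) / (4 * R))) := by ring
    rw [e1]
    nlinarith
  -- good part
  have p3 : |∑ m ∈ G, F m * ww (1 - x) m| ≤ 6 * C * E := by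
    have h1 : ∀ F : ℤ → ℝ, Sync d F → (∀ y, 0 ≤ F y) → |∑ m ∈ G, F m * ww (1 - x) m| ≤ 2 * C * E := by
      intro F hF hF0
      have a0 := hG 0 (by norm_num) F hF hF0
      have a1 := hG 1 le_rfl F hF hF0
      rw [← hLdef, ← hEdef] at a0 a1
      have e1 : ∑ m ∈ G, F m * ww (1 - x) m = ∑ m ∈ G, F m * psi (-(((m : ℝ) + (1 : ℕ)) ^ (1 - x)))
          - ∑ m ∈ G, F m * psi (-(((m : ℝ) + (0 : ℕ)) ^ (1 - x))) := by
        rw [← sum_sub_distrib]
        apply sum_congr rfl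
        intro m _
        rw [ww_psi]
        push_cast
        rw [add_zero]; ring
      rw [e1]
      refine (abs_sub _ _).trans ?_
      linarith
    have h2 := h1 _ (good_half hF) (fun y => by
      have := (abs_le.1 (hF.1 y)).1
      linarith)
    have h3 := h1 _ sync_one (fun y => by norm_num)
    have e2 : ∑ m ∈ G, F m * ww (1 - x) m = 2 * ∑ m ∈ G, (1 + F m) / 2 * ww (1 - x) m - ∑ m ∈ G, 1 * ww (1 - x) m := by
      rw [mul_sum, ← sum_sub_distrib]
      apply sum_congr rfl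
      intro m _; ring
    rw [e2]
    refine (abs_sub _ _).trans ?_
    rw [abs_mul, abs_two]
    linarith
  rw [hdec]
  have h4 := abs_add_le (∑ m ∈ Icc 1 N1, F m * ww (1 - x) m)
    (∑ m ∈ G, F m * ww (1 - x) m + ∑ m ∈ (Ioc N1 N).filter (fun m : ℕ => ¬ Good d u R (m : ℤ)), F m * ww (1 - x) m)
  have h5 := abs_add_le (∑ m ∈ G, F m * ww (1 - x) m)
    (∑ m ∈ (Ioc N1 N).filter (fun m : ℕ => ¬ Good d u R (m : ℤ)), F m * ww (1 - x) m)
  have h6 : 0 < Real.exp 100 * E := by positivity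
  nlinarith

end Pool.Agent.Y965.PS
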