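import Mathlib

/-! Orbits of the shortcut map on a class modulo `2 ^ t`: number of odd terms, offset, counting. -/

set_option autoImplicit false

namespace Pool.Agent.Y965.PS

open Finset

/-- the shortcut map `x / 2`, `(3 x + d) / 2` -/
def Tz (d x : ℤ) : ℤ := if x % 2 = 0 then x / 2 else (3 * x + d) / 2

/-- the number of odd terms among the first `t` terms of the trajectory -/
def ac (d : ℤ) : ℕ → ℤ → ℕ
  | 0, _ => 0
  | t + 1, x => ac d t x + (if (Tz d)^[t] x % 2 = 0 then 0 else 1)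

/-- the offset: `2 ^ t T^t x = 3 ^ a x + d c` -/
def oc (d : ℤ) : ℕ → ℤ → ℤ
  | 0, _ => 0
  | t + 1, x => if (Tz d)^[t] x % 2 = 0 then oc d t x else 3 * oc d t x + 2 ^ t

variable {d : ℤ}

theorem ac_succ (t : ℕ) (x : ℤ) : ac d (t + 1) x = ac d t x + (if (Tz d)^[t] x % 2 = 0 then 0 else 1) := rfl

theorem oc_succ (t : ℕ) (x : ℤ) :
    oc d (t + 1) x = if (Tz d)^[t] x % 2 = 0 then oc d t x else 3 * oc d t x + 2 ^ t := rfl

theorem two_Tz_even {y : ℤ} (h : y % 2 = 0) : 2 * Tz d y = y := by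
  unfold Tz; rw [if_pos h]; omega

theorem two_Tz_odd (hd : d % 2 = 1) {y : ℤ} (h : ¬ y % 2 = 0) : 2 * Tz d y = 3 * y + d := by
  unfold Tz; rw [if_neg h]; omega

theorem main_id (hd : d % 2 = 1) (x : ℤ) : ∀ t : ℕ,
    2 ^ t * (Tz d)^[t] x = 3 ^ (ac d t x) * x + d * oc d t x := by
  intro t
  induction t with
  | zero => simp [ac, oc]
  | succ t ih =>
    rw [Function.iterate_succ_apply']
    by_cases h : (Tz d)^[t] x % 2 = 0
    · have e1 : ac d (t + 1) x = ac d t x := by simp [ac, h]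
      have e2 : oc d (t + 1) x = oc d t x := by simp [oc, h]
      rw [e1, e2, ← ih]
      have e3 : 2 * Tz d ((Tz d)^[t] x) = (Tz d)^[t] x := two_Tz_even h
      calc (2 : ℤ) ^ (t + 1) * Tz d ((Tz d)^[t] x) = 2 ^ t * (2 * Tz d ((Tz d)^[t] x)) := by ring
        _ = _ := by rw [e3]
    · have e1 : ac d (t + 1) x = ac d t x + 1 := by simp [ac, h]
      have e2 : oc d (t + 1) x = 3 * oc d t x + 2 ^ t := by simp [oc, h]
      rw [e1, e2]
      have e3 : 2 * Tz d ((Tz d)^[t] x) = 3 * (Tz d)^[t] x + d := two_Tz_odd hd h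
      calc (2 : ℤ) ^ (t + 1) * Tz d ((Tz d)^[t] x) = 2 ^ t * (2 * Tz d ((Tz d)^[t] x)) := by ring
        _ = 3 * (2 ^ t * (Tz d)^[t] x) + d * 2 ^ t := by rw [e3]; ring
        _ = _ := by rw [ih]; ring

theorem ac_le (x : ℤ) : ∀ t : ℕ, ac d t x ≤ t := by
  intro t
  induction t with
  | zero => simp [ac]
  | succ t ih =>
    unfold ac
    split_ifs <;> omega

theorem oc_nonneg (x : ℤ) : ∀ t : ℕ, 0 ≤ oc d t x := by
  intro t
  induction t with
  | zero => simp [oc]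
  | succ t ih =>
    unfold oc
    split_ifs
    · exact ih
    · positivity

theorem Tz_shift (x v : ℤ) : Tz d (x + 2 * v) = Tz d x + (if x % 2 = 0 then 1 else 3) * v := by
  unfold Tz
  have h : (x + 2 * v) % 2 = x % 2 := by omega
  rw [h]
  split_ifs <;> omega

theorem shift (x : ℤ) : ∀ (t : ℕ) (u : ℤ), (Tz d)^[t] (x + 2 ^ t * u) = (Tz d)^[t] x + 3 ^ (ac d t x) * u ∧
    ac d t (x + 2 ^ t * u) = ac d t x ∧ oc d t (x + 2 ^ t * u) = oc d t x := by
  intro t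
  induction t with
  | zero => intro u; simp [ac, oc]
  | succ t ih =>
    intro u
    obtain ⟨h1, h2, h3⟩ := ih (2 * u)
    have e : x + 2 ^ (t + 1) * u = x + 2 ^ t * (2 * u) := by ring
    rw [e]
    have e2 : (Tz d)^[t] (x + 2 ^ t * (2 * u)) = (Tz d)^[t] x + 2 * (3 ^ (ac d t x) * u) := by rw [h1]; ring
    have e3 : (Tz d)^[t] (x + 2 ^ t * (2 * u)) % 2 = (Tz d)^[t] x % 2 := by rw [e2]; omega
    refine ⟨?_, ?_, ?_⟩
    · rw [Function.iterate_succ_apply', Function.iterate_succ_apply', e2, Tz_shift, ac_succ]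
      by_cases h : (Tz d)^[t] x % 2 = 0
      · rw [if_pos h, if_pos h]; ring
      · rw [if_neg h, if_neg h]; ring
    · rw [ac_succ, ac_succ, e3, h2]
    · rw [oc_succ, oc_succ, e3, h3]

theorem Tz_pos (hd : d = 1 ∨ d = -1) {x : ℤ} (hx : 0 < x) : 0 < Tz d x := by
  unfold Tz
  rcases hd with rfl | rfl <;> split_ifs <;> omega

theorem iter_pos (hd : d = 1 ∨ d = -1) {x : ℤ} (hx : 0 < x) (t : ℕ) : 0 < (Tz d)^[t] x := by
  induction t with
  | zero => simpa using hx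
  | succ t ih => rw [Function.iterate_succ_apply']; exact Tz_pos hd ih

/-- splitting a complete residue system modulo `2 ^ (t + 1)` -/
theorem sum_double {M : Type*} [AddCommMonoid M] (f : ℕ → M) (t : ℕ) :
    ∑ r ∈ range (2 ^ (t + 1)), f r = ∑ r ∈ range (2 ^ t), (f r + f (r + 2 ^ t)) := by
  rw [pow_succ, mul_two, sum_range_add, sum_add_distrib]
  congr 1
  exact sum_congr rfl fun r _ => by rw [add_comm]

theorem parity_flip (t : ℕ) (r : ℕ) :
    ((Tz d)^[t] ((r + 2 ^ t : ℕ) : ℤ) % 2 = 0 ↔ ¬ (Tz d)^[t] (r : ℤ) % 2 = 0) := by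
  have h := (shift (d := d) (r : ℤ) t 1).1
  have e : ((r + 2 ^ t : ℕ) : ℤ) = (r : ℤ) + 2 ^ t * 1 := by push_cast; ring
  rw [e, h, mul_one]
  have h3 : (3 : ℤ) ^ (ac d t r) % 2 = 1 := by
    exact Int.odd_iff.1 (Odd.pow (by decide))
  omega

theorem ac_flip (t r : ℕ) : ac d t ((r + 2 ^ t : ℕ) : ℤ) = ac d t r := by
  have h := (shift (d := d) (r : ℤ) t 1).2.1
  have e : ((r + 2 ^ t : ℕ) : ℤ) = (r : ℤ) + 2 ^ t * 1 := by push_cast; ring
  rw [e, h]

theorem oc_flip (t r : ℕ) : oc d t ((r + 2 ^ t : ℕ) : ℤ) = oc d t r := by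
  have h := (shift (d := d) (r : ℤ) t 1).2.2
  have e : ((r + 2 ^ t : ℕ) : ℤ) = (r : ℤ) + 2 ^ t * 1 := by push_cast; ring
  rw [e, h]

/-- exponential moment of the number of odd terms -/
theorem moment (a b : ℝ) : ∀ t : ℕ,
    ∑ r ∈ range (2 ^ t), a ^ (ac d t r) * b ^ (t - ac d t r) = (a + b) ^ t := by
  intro t
  induction t with
  | zero => simp [ac]
  | succ t ih =>
    rw [sum_double, pow_succ, ← ih, sum_mul]
    apply sum_congr rfl
    intro r _
    have hp := parity_flip (d := d) t r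
    have hle := ac_le (d := d) (r : ℤ) t
    rw [ac_succ, ac_succ, ac_flip]
    by_cases h : (Tz d)^[t] (r : ℤ) % 2 = 0
    · have h' : ¬ (Tz d)^[t] ((r + 2 ^ t : ℕ) : ℤ) % 2 = 0 := fun hh => (hp.1 hh) h
      rw [if_pos h, if_neg h', add_zero]
      have e1 : t + 1 - ac d t r = (t - ac d t r) + 1 := by omega
      have e2 : t + 1 - (ac d t r + 1) = t - ac d t r := by omega
      rw [e1, e2, pow_succ, pow_succ]; ring
    · have h' : (Tz d)^[t] ((r + 2 ^ t : ℕ) : ℤ) % 2 = 0 := hp.2 h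
      rw [if_neg h, if_pos h', add_zero]
      have e1 : t + 1 - ac d t r = (t - ac d t r) + 1 := by omega
      have e2 : t + 1 - (ac d t r + 1) = t - ac d t r := by omega
      rw [e1, e2, pow_succ, pow_succ]; ring

/-- first moment of the offset -/
theorem offset_moment : ∀ t : ℕ,
    4 * ∑ r ∈ range (2 ^ t), oc d t (r : ℤ) = t * 4 ^ t := by
  intro t
  induction t with
  | zero => simp [oc]
  | succ t ih =>
    rw [sum_double]
    have key : ∀ r ∈ range (2 ^ t), oc d (t + 1) (r : ℤ) + oc d (t + 1) ((r + 2 ^ t : ℕ) : ℤ)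
        = 4 * oc d t (r : ℤ) + 2 ^ t := by
      intro r _
      have hp := parity_flip (d := d) t r
      rw [oc_succ, oc_succ, oc_flip]
      by_cases h : (Tz d)^[t] (r : ℤ) % 2 = 0
      · have h' : ¬ (Tz d)^[t] ((r + 2 ^ t : ℕ) : ℤ) % 2 = 0 := fun hh => (hp.1 hh) h
        rw [if_pos h, if_neg h']; ring
      · have h' : (Tz d)^[t] ((r + 2 ^ t : ℕ) : ℤ) % 2 = 0 := hp.2 h
        rw [if_neg h, if_pos h']; ring
    rw [sum_congr rfl key, sum_add_distrib, ← mul_sum, ih, sum_const, card_range]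
    have e : (4 : ℤ) ^ t = 2 ^ t * 2 ^ t := by rw [← mul_pow]; norm_num
    rw [nsmul_eq_mul]
    push_cast
    rw [pow_succ, e]
    ring

theorem markov (Q : Finset ℕ) (P : ℕ → Prop) [DecidablePred P] (f : ℕ → ℝ) (K : ℝ) (h0 : ∀ r ∈ Q, 0 ≤ f r)
    (h : ∀ r ∈ Q, P r → K ≤ f r) : ((Q.filter P).card : ℝ) * K ≤ ∑ r ∈ Q, f r := by
  have h1 : ((Q.filter P).card : ℝ) * K ≤ ∑ r ∈ Q.filter P, f r := by
    rw [← nsmul_eq_mul]
    apply card_nsmul_le_sum
    intro r hr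
    rw [mem_filter] at hr
    exact h r hr.1 hr.2
  exact h1.trans (sum_le_sum_of_subset_of_nonneg (filter_subset _ _) fun i hi _ => h0 i hi)

/-- the good classes modulo `2 ^ (5 u)` -/
def Good (d : ℤ) (u : ℕ) (R : ℝ) (x : ℤ) : Prop :=
  2 * u ≤ ac d (5 * u) x ∧ ac d (5 * u) x ≤ 3 * u ∧ (oc d (5 * u) x : ℝ) ≤ R * 2 ^ (5 * u)

theorem good_shift (u : ℕ) (R : ℝ) (x v : ℤ) : Good d u R (x + 2 ^ (5 * u) * v) ↔ Good d u R x := by
  obtain ⟨-, h2, h3⟩ := shift (d := d) x (5 * u) v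
  unfold Good
  rw [h2, h3]

open Classical in
theorem bad_card (u : ℕ) {R : ℝ} (hR : 0 < R) :
    (((range (2 ^ (5 * u))).filter fun r : ℕ => ¬ Good d u R (r : ℤ)).card : ℝ)
      ≤ 2 ^ (5 * u) * (2 * (3125 / 3456) ^ u + 5 * u / (4 * R)) := by
  set Q := range (2 ^ (5 * u)) with hQ
  have hsub : (Q.filter fun r : ℕ => ¬ Good d u R (r : ℤ)) ⊆
      (Q.filter fun r : ℕ => ac d (5 * u) (r : ℤ) < 2 * u) ∪ (Q.filter fun r : ℕ => 3 * u < ac d (5 * u) (r : ℤ))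
        ∪ (Q.filter fun r : ℕ => R * 2 ^ (5 * u) < (oc d (5 * u) (r : ℤ) : ℝ)) := by
    intro r hr
    rw [mem_filter] at hr
    rw [mem_union, mem_union, mem_filter, mem_filter, mem_filter]
    unfold Good at hr
    by_contra hcon
    push Not at hcon
    exact hr.2 ⟨hcon.1.1 hr.1, hcon.1.2 hr.1, hcon.2 hr.1⟩
  have h32 : (2 : ℝ) ^ (5 * u) = 32 ^ u := by rw [pow_mul]; norm_num
  have hup : ((Q.filter fun r : ℕ => 3 * u < ac d (5 * u) (r : ℤ)).card : ℝ) ≤ 2 ^ (5 * u) * (3125 / 3456) ^ u := by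
    have h1 := moment (d := d) (3 / 2) 1 (5 * u)
    have h2 : ((Q.filter fun r : ℕ => 3 * u < ac d (5 * u) (r : ℤ)).card : ℝ) * (3 / 2) ^ (3 * u) ≤
        ∑ r ∈ Q, (3 / 2 : ℝ) ^ (ac d (5 * u) r) * 1 ^ (5 * u - ac d (5 * u) r) := by
      refine markov Q (fun r : ℕ => 3 * u < ac d (5 * u) (r : ℤ))
        (fun r : ℕ => (3 / 2 : ℝ) ^ (ac d (5 * u) r) * 1 ^ (5 * u - ac d (5 * u) r)) _ ?_ ?_
      · intro r _; positivity
      · intro r _ hr
        rw [one_pow, mul_one]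
        exact pow_le_pow_right₀ (by norm_num) hr.le
    rw [h1] at h2
    have e1 : ((3 : ℝ) / 2 + 1) ^ (5 * u) = (2 ^ (5 * u) * (3125 / 3456) ^ u) * (3 / 2) ^ (3 * u) := by
      rw [h32, pow_mul, pow_mul, ← mul_pow, ← mul_pow]; norm_num
    rw [e1] at h2
    exact le_of_mul_le_mul_right h2 (by positivity)
  have hlo : ((Q.filter fun r : ℕ => ac d (5 * u) (r : ℤ) < 2 * u).card : ℝ) ≤ 2 ^ (5 * u) * (3125 / 3456) ^ u := by
    have h1 := moment (d := d) 1 (3 / 2) (5 * u)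
    have h2 : ((Q.filter fun r : ℕ => ac d (5 * u) (r : ℤ) < 2 * u).card : ℝ) * (3 / 2) ^ (3 * u) ≤
        ∑ r ∈ Q, (1 : ℝ) ^ (ac d (5 * u) r) * (3 / 2) ^ (5 * u - ac d (5 * u) r) := by
      refine markov Q (fun r : ℕ => ac d (5 * u) (r : ℤ) < 2 * u)
        (fun r : ℕ => (1 : ℝ) ^ (ac d (5 * u) r) * (3 / 2) ^ (5 * u - ac d (5 * u) r)) _ ?_ ?_
      · intro r _; positivity
      · intro r _ hr
        rw [one_pow, one_mul]
        exact pow_le_pow_right₀ (by norm_num) (by omega)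
    rw [h1] at h2
    have e1 : ((1 : ℝ) + 3 / 2) ^ (5 * u) = (2 ^ (5 * u) * (3125 / 3456) ^ u) * (3 / 2) ^ (3 * u) := by
      rw [h32, pow_mul, pow_mul, ← mul_pow, ← mul_pow]; norm_num
    rw [e1] at h2
    exact le_of_mul_le_mul_right h2 (by positivity)
  have hof : ((Q.filter fun r : ℕ => R * 2 ^ (5 * u) < (oc d (5 * u) (r : ℤ) : ℝ)).card : ℝ)
      ≤ 2 ^ (5 * u) * (5 * u / (4 * R)) := by
    have h1 := offset_moment (d := d) (5 * u)
    have h1R : 4 * ∑ r ∈ Q, (oc d (5 * u) (r : ℤ) : ℝ) = (5 * u : ℕ) * 4 ^ (5 * u) := by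
      exact_mod_cast h1
    have h2 : ((Q.filter fun r : ℕ => R * 2 ^ (5 * u) < (oc d (5 * u) (r : ℤ) : ℝ)).card : ℝ) * (R * 2 ^ (5 * u))
        ≤ ∑ r ∈ Q, (oc d (5 * u) (r : ℤ) : ℝ) := by
      refine markov Q (fun r : ℕ => R * 2 ^ (5 * u) < (oc d (5 * u) (r : ℤ) : ℝ))
        (fun r : ℕ => (oc d (5 * u) (r : ℤ) : ℝ)) _ ?_ ?_
      · intro r _
        exact_mod_cast oc_nonneg (d := d) (r : ℤ) (5 * u)
      · intro r _ hr
        exact hr.le
    have e4 : (4 : ℝ) ^ (5 * u) = 2 ^ (5 * u) * 2 ^ (5 * u) := by rw [← mul_pow]; norm_num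
    have h3 : 0 < R * 2 ^ (5 * u) := by positivity
    rw [← le_div_iff₀ h3] at h2
    refine h2.trans (le_of_eq ?_)
    have h4 : ∑ r ∈ Q, (oc d (5 * u) (r : ℤ) : ℝ) = (5 * u : ℕ) * (2 ^ (5 * u) * 2 ^ (5 * u)) / 4 := by
      rw [← e4]; linarith
    rw [h4]
    push_cast
    field_simp
  have hc : ((Q.filter fun r : ℕ => ¬ Good d u R (r : ℤ)).card : ℝ) ≤
      ((Q.filter fun r : ℕ => ac d (5 * u) (r : ℤ) < 2 * u).card : ℝ)
      + ((Q.filter fun r : ℕ => 3 * u < ac d (5 * u) (r : ℤ)).card : ℝ)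
      + ((Q.filter fun r : ℕ => R * 2 ^ (5 * u) < (oc d (5 * u) (r : ℤ) : ℝ)).card : ℝ) := by
    have h1 := card_le_card hsub
    have h2 := card_union_le ((Q.filter fun r : ℕ => ac d (5 * u) (r : ℤ) < 2 * u) ∪ (Q.filter fun r : ℕ => 3 * u < ac d (5 * u) (r : ℤ)))
      (Q.filter fun r : ℕ => R * 2 ^ (5 * u) < (oc d (5 * u) (r : ℤ) : ℝ))
    have h3 := card_union_le (Q.filter fun r : ℕ => ac d (5 * u) (r : ℤ) < 2 * u) (Q.filter fun r : ℕ => 3 * u < ac d (5 * u) (r : ℤ))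
    exact_mod_cast h1.trans (h2.trans (Nat.add_le_add_right h3 _))
  calc _ ≤ _ := hc
    _ ≤ 2 ^ (5 * u) * (3125 / 3456) ^ u + 2 ^ (5 * u) * (3125 / 3456) ^ u + 2 ^ (5 * u) * (5 * u / (4 * R)) := by
        linarith
    _ = _ := by ring

open Classical in
/-- the number of bad integers up to `N` -/
theorem bad_count (u : ℕ) {R : ℝ} (hR : 0 < R) (N : ℕ) (hN : 2 ^ (5 * u) ≤ N) :
    (((Icc 1 N).filter fun m : ℕ => ¬ Good d u R (m : ℤ)).card : ℝ)
      ≤ 2 * N * (2 * (3125 / 3456) ^ u + 5 * u / (4 * R)) := by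
  set q := 2 ^ (5 * u) with hq
  have hq0 : 0 < q := by positivity
  set B := (range q).filter fun r : ℕ => ¬ Good d u R (r : ℤ) with hB
  have hsub : ((Icc 1 N).filter fun m : ℕ => ¬ Good d u R (m : ℤ)) ⊆
      (B ×ˢ range (N / q + 1)).image fun p : ℕ × ℕ => p.1 + q * p.2 := by
    intro m hm
    rw [mem_filter, mem_Icc] at hm
    rw [mem_image]
    refine ⟨(m % q, m / q), ?_, Nat.mod_add_div m q⟩
    rw [mem_product, hB, mem_filter, mem_range, mem_range]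
    refine ⟨⟨Nat.mod_lt _ hq0, ?_⟩, Nat.lt_succ_of_le (Nat.div_le_div_right hm.1.2)⟩
    have e : (m : ℤ) = ((m % q : ℕ) : ℤ) + 2 ^ (5 * u) * ((m / q : ℕ) : ℤ) := by
      have := Nat.mod_add_div m q
      have h2 : ((m % q + q * (m / q) : ℕ) : ℤ) = (m : ℤ) := by rw [this]
      rw [← h2, hq]; push_cast; ring
    have h2 := hm.2
    rw [e, good_shift] at h2
    exact h2
  have h1 : ((Icc 1 N).filter fun m : ℕ => ¬ Good d u R (m : ℤ)).card ≤ B.card * (N / q + 1) := by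
    refine (card_le_card hsub).trans (card_image_le.trans ?_)
    rw [card_product, card_range]
  have h2 : (B.card : ℝ) ≤ q * (2 * (3125 / 3456) ^ u + 5 * u / (4 * R)) := by
    have := bad_card (d := d) u hR
    rw [hB, hq]
    push_cast
    exact this
  have h3 : ((N / q + 1 : ℕ) : ℝ) * q ≤ 2 * N := by
    have h4 : (N / q + 1) * q ≤ 2 * N := by
      have := Nat.div_mul_le_self N q
      nlinarith
    exact_mod_cast h4
  have h5 : (((Icc 1 N).filter fun m : ℕ => ¬ Good d u R (m : ℤ)).card : ℝ) ≤ B.card * ((N / q + 1 : ℕ) : ℝ) := by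
    exact_mod_cast h1
  have h6 : 0 ≤ 2 * (3125 / 3456 : ℝ) ^ u + 5 * u / (4 * R) := by positivity
  calc _ ≤ _ := h5
    _ ≤ (q * (2 * (3125 / 3456) ^ u + 5 * u / (4 * R))) * ((N / q + 1 : ℕ) : ℝ) :=
        mul_le_mul_of_nonneg_right h2 (Nat.cast_nonneg _)
    _ = (((N / q + 1 : ℕ) : ℝ) * q) * (2 * (3125 / 3456) ^ u + 5 * u / (4 * R)) := by ring
    _ ≤ (2 * N) * (2 * (3125 / 3456) ^ u + 5 * u / (4 * R)) := mul_le_mul_of_nonneg_right h3 h6

end Pool.Agent.Y965.PS
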