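import Pool.Agent.Y965.PS.Sum

/-! Choice of the parameters; the transfer inequality for the Piatetski-Shapiro sequences. -/

set_option autoImplicit false

namespace Pool.Agent.Y965.PS

open Finset Pool.Agent.H469R2.NK

variable {d : ℤ}

theorem exp_c1 : Real.exp 0.165 ≤ 32 / 27 := by
  have h1 : Real.exp 0.0165 ≤ 1 / (1 - 0.0165) :=
    Real.exp_bound_div_one_sub_of_interval (by norm_num) (by norm_num)
  have h2 : Real.exp 0.165 = Real.exp 0.0165 ^ 10 := by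
    rw [← Real.exp_nat_mul]; norm_num
  rw [h2]
  refine (pow_le_pow_left₀ (Real.exp_pos _).le h1 10).trans ?_
  norm_num

theorem exp_c2 : Real.exp 0.08 ≤ 3456 / 3125 := by
  have h1 : Real.exp 0.008 ≤ 1 / (1 - 0.008) :=
    Real.exp_bound_div_one_sub_of_interval (by norm_num) (by norm_num)
  have h2 : Real.exp 0.08 = Real.exp 0.008 ^ 10 := by
    rw [← Real.exp_nat_mul]; norm_num
  rw [h2]
  refine (pow_le_pow_left₀ (Real.exp_pos _).le h1 10).trans ?_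
  norm_num

theorem exp_c3 : (1024 / 9 : ℝ) ≤ Real.exp 4.75 := by
  have h1 : (Real.exp 4.75) ^ 4 = Real.exp 1 ^ 19 := by
    rw [← Real.exp_nat_mul, ← Real.exp_nat_mul]; norm_num
  have h2 : (2.7182818283 : ℝ) ^ 19 ≤ Real.exp 1 ^ 19 :=
    pow_le_pow_left₀ (by norm_num) Real.exp_one_gt_d9.le 19
  have h3 : (1024 / 9 : ℝ) ^ 4 ≤ (Real.exp 4.75) ^ 4 := by
    rw [h1]; refine le_trans ?_ h2; norm_num
  exact (pow_le_pow_iff_left₀ (by norm_num) (Real.exp_pos _).le (by norm_num)).1 h3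

theorem exp_c4 : (32 : ℝ) ≤ Real.exp 3.5 := by
  have h1 : (Real.exp 3.5) ^ 2 = Real.exp 1 ^ 7 := by
    rw [← Real.exp_nat_mul, ← Real.exp_nat_mul]; norm_num
  have h2 : (2.7182818283 : ℝ) ^ 7 ≤ Real.exp 1 ^ 7 :=
    pow_le_pow_left₀ (by norm_num) Real.exp_one_gt_d9.le 7
  have h3 : (32 : ℝ) ^ 2 ≤ (Real.exp 3.5) ^ 2 := by
    rw [h1]; refine le_trans ?_ h2; norm_num
  exact (pow_le_pow_iff_left₀ (by norm_num) (Real.exp_pos _).le (by norm_num)).1 h3

theorem pow_exp_le {a b : ℝ} (ha : 0 ≤ a) (h : a ≤ Real.exp b) (u : ℕ) : a ^ u ≤ Real.exp (b * u) := by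
  rw [mul_comm, Real.exp_nat_mul]
  exact pow_le_pow_left₀ ha h u

theorem c1' : (27 / 32 : ℝ) ≤ Real.exp (-0.165) := by
  rw [Real.exp_neg, le_inv_comm₀ (by norm_num) (Real.exp_pos _)]
  refine exp_c1.trans (le_of_eq (by norm_num))

theorem c2' : (3125 / 3456 : ℝ) ≤ Real.exp (-0.08) := by
  rw [Real.exp_neg, le_inv_comm₀ (by norm_num) (Real.exp_pos _)]
  refine exp_c2.trans (le_of_eq (by norm_num))

/-- the difference between the indicator function of the sequence and its density -/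
noncomputable def ww (γ : ℝ) (m : ℕ) : ℝ :=
  (⌈((m : ℝ) + 1) ^ γ⌉ : ℝ) - ⌈(m : ℝ) ^ γ⌉ - (((m : ℝ) + 1) ^ γ - (m : ℝ) ^ γ)

theorem ww_psi (γ : ℝ) (m : ℕ) : ww γ m = psi (-(((m : ℝ) + 1) ^ γ)) - psi (-((m : ℝ) ^ γ)) := by
  unfold ww psi
  have h : ∀ y : ℝ, Int.fract (-y) = -y + ⌈y⌉ := by
    intro y
    unfold Int.fract
    rw [Int.floor_neg]; push_cast; ring
  rw [h, h]; ring

theorem ww_le_one (γ : ℝ) (m : ℕ) : |ww γ m| ≤ 1 := by
  rw [ww_psi]
  unfold psi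
  have h1 := Int.fract_nonneg (-(((m : ℝ) + 1) ^ γ))
  have h2 := Int.fract_lt_one (-(((m : ℝ) + 1) ^ γ))
  have h3 := Int.fract_nonneg (-((m : ℝ) ^ γ))
  have h4 := Int.fract_lt_one (-((m : ℝ) ^ γ))
  rw [abs_le]; constructor <;> linarith

/-- the beginning of the sequence -/
theorem ww_small {γ : ℝ} (hγ0 : 0 < γ) {F : ℤ → ℝ} (hF : ∀ x, |F x| ≤ 1) (M : ℕ) :
    |∑ m ∈ Icc 1 M, F m * ww γ m| ≤ 2 * ((M : ℝ) + 1) ^ γ := by
  have h1 : ∀ m : ℕ, |F m * ww γ m| ≤ ((⌈((m : ℝ) + 1) ^ γ⌉ : ℝ) - ⌈(m : ℝ) ^ γ⌉) + (((m : ℝ) + 1) ^ γ - (m : ℝ) ^ γ) := by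
    intro m
    have hmono : (m : ℝ) ^ γ ≤ ((m : ℝ) + 1) ^ γ :=
      Real.rpow_le_rpow (Nat.cast_nonneg _) (by linarith) hγ0.le
    have hc : (⌈(m : ℝ) ^ γ⌉ : ℝ) ≤ ⌈((m : ℝ) + 1) ^ γ⌉ := by exact_mod_cast Int.ceil_mono hmono
    rw [abs_mul]
    have h2 := hF m
    have h3 : |ww γ m| ≤ ((⌈((m : ℝ) + 1) ^ γ⌉ : ℝ) - ⌈(m : ℝ) ^ γ⌉) + (((m : ℝ) + 1) ^ γ - (m : ℝ) ^ γ) := by
      unfold ww
      rw [abs_le]; constructor <;> linarith
    nlinarith [abs_nonneg (F m), abs_nonneg (ww γ m)]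
  refine (abs_sum_le_sum_abs _ _).trans ((sum_le_sum fun m _ => h1 m).trans ?_)
  have h2 : ∀ M : ℕ, ∑ m ∈ Icc 1 M, (((⌈((m : ℝ) + 1) ^ γ⌉ : ℝ) - ⌈(m : ℝ) ^ γ⌉) + (((m : ℝ) + 1) ^ γ - (m : ℝ) ^ γ))
      = ((⌈((M : ℝ) + 1) ^ γ⌉ : ℝ) - 1) + (((M : ℝ) + 1) ^ γ - 1) := by
    intro M
    induction M with
    | zero => simp
    | succ M ih =>
      rw [Finset.sum_Icc_succ_top (by omega), ih]
      push_cast
      ring
  rw [h2]
  have h3 := Int.ceil_lt_add_one (((M : ℝ) + 1) ^ γ)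
  linarith

theorem good_half {F : ℤ → ℝ} (hF : Sync d F) : Sync d (fun x => (1 + F x) / 2) := by
  refine ⟨fun x => ?_, fun j x y h => by simp only [hF.2 j x y h]⟩
  have := abs_le.1 (hF.1 x)
  rw [abs_le]; constructor <;> linarith

theorem sync_one : Sync d (fun _ => 1) := ⟨fun x => by simp, fun _ _ _ _ => rfl⟩

/-- the exponential sums over the good integers -/
theorem En_bound (hd : d = 1 ∨ d = -1) {x : ℝ} (hx0 : 0 < x) (hx1 : x < 1 / 101) :
    ∃ C : ℝ, 1 ≤ C ∧ ∀ N : ℕ, 100 ≤ Real.log N → ∀ n i : ℕ, 1 ≤ n → i ≤ 1 →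
      (n : ℝ) ≤ 2 * Real.exp ((2 * x + 1 / 2000) * Real.log N) → ∀ F : ℤ → ℝ, Sync d F →
      ‖∑ m ∈ GS d ⌊3 * Real.log N / 16⌋₊ (Real.exp (0.0125 * Real.log N)) ⌊Real.exp (0.99 * Real.log N)⌋₊ N,
        (F m : ℂ) * e (n * ((m : ℝ) + i) ^ (1 - x))‖
        ≤ C * (Real.log N * Real.exp ((0.98453125 + x / 2) * Real.log N)) := by
  have hγ0 : (0 : ℝ) < 1 - x := by linarith
  have hγ1 : 1 - x < 1 := by linarith
  have a3 : 0 < (1 - x) * (1 - (1 - x)) := mul_pos hγ0 (by linarith)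
  set C1 : ℝ := 1 + 72 / ((1 - x) * (1 - (1 - x))) with hC1
  have hC1p : 1 ≤ C1 := by rw [hC1]; have : 0 < 72 / ((1 - x) * (1 - (1 - x))) := by positivity
                           linarith
  refine ⟨3 * C1, by linarith, ?_⟩
  intro N hL n i hn hi hnK F hF
  set L := Real.log N with hLdef
  have hNpos : (0 : ℝ) < N := by
    by_contra h
    have h0 : (N : ℝ) = 0 := le_antisymm (not_lt.1 h) (Nat.cast_nonneg _)
    rw [hLdef, h0, Real.log_zero] at hL
    linarith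
  have hexp : Real.exp L = N := Real.exp_log hNpos
  set u := ⌊3 * L / 16⌋₊ with hu
  have hu1 : (u : ℝ) ≤ 3 * L / 16 := Nat.floor_le (by linarith)
  have hu2 : 3 * L / 16 < u + 1 := Nat.lt_floor_add_one _
  set R := Real.exp (0.0125 * L) with hR
  have hR1 : 1 ≤ R := Real.one_le_exp (by linarith)
  set N1 := ⌊Real.exp (0.99 * L)⌋₊ with hN1
  have hE99 : 1 ≤ Real.exp (0.99 * L) := Real.one_le_exp (by linarith)
  have hN1a : (N1 : ℝ) ≤ Real.exp (0.99 * L) := Nat.floor_le (by positivity)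
  have hN1b : Real.exp (0.99 * L) < N1 + 1 := Nat.lt_floor_add_one _
  have hN11 : 1 ≤ N1 := Nat.le_floor (by exact_mod_cast hE99)
  have hN11R : (1 : ℝ) ≤ N1 := by exact_mod_cast hN11
  have hN1N : N1 ≤ N := by
    have h1 : (N1 : ℝ) ≤ N := by
      rw [← hexp]; exact hN1a.trans (Real.exp_le_exp.2 (by linarith))
    exact_mod_cast h1
  have hu0 : (0 : ℝ) ≤ u := Nat.cast_nonneg u
  -- `2 ^ (5u) ≤ N`
  have hq : 2 ^ (5 * u) ≤ N := by
    have h1 : ((2 : ℝ) ^ (5 * u)) ≤ N := by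
      rw [pow_mul, show ((2 : ℝ) ^ 5) = 32 by norm_num, ← hexp]
      refine (pow_exp_le (by norm_num) exp_c4 u).trans (Real.exp_le_exp.2 ?_)
      linarith
    exact_mod_cast h1
  have hH : R * (32 / 9) ^ u ≤ N := by
    have h1 : (32 / 9 : ℝ) ^ u ≤ Real.exp (3.5 * u) := by
      refine (pow_le_pow_left₀ (by norm_num) (by norm_num : (32 / 9 : ℝ) ≤ 32) u).trans ?_
      exact pow_exp_le (by norm_num) exp_c4 u
    calc R * (32 / 9) ^ u ≤ R * Real.exp (3.5 * u) := mul_le_mul_of_nonneg_left h1 (by linarith)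
      _ = Real.exp (0.0125 * L + 3.5 * u) := by rw [hR, Real.exp_add]
      _ ≤ Real.exp L := Real.exp_le_exp.2 (by linarith)
      _ = N := hexp
  have hN1g : (N1 : ℝ) ^ ((1 - x) - 2) ≤ 4 * Real.exp (-(0.99 * (1 + x) * L)) := by
    have h1 : Real.exp (0.99 * L) / 2 ≤ N1 := by linarith
    have h2 : (N1 : ℝ) ^ ((1 - x) - 2) ≤ (Real.exp (0.99 * L) / 2) ^ ((1 - x) - 2) :=
      Real.rpow_le_rpow_of_nonpos (by positivity) h1 (by linarith)
    refine h2.trans ?_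
    rw [Real.div_rpow (by positivity) (by norm_num), ← Real.exp_mul, div_eq_mul_inv, ← Real.rpow_neg (by norm_num), mul_comm]
    have h3 : (2 : ℝ) ^ (-((1 - x) - 2)) ≤ 4 := by
      calc (2 : ℝ) ^ (-((1 - x) - 2)) ≤ (2 : ℝ) ^ (2 : ℝ) := Real.rpow_le_rpow_of_exponent_le (by norm_num) (by linarith)
        _ = 4 := by norm_num
    have h4 : 0.99 * L * ((1 - x) - 2) = -(0.99 * (1 + x) * L) := by ring
    rw [h4]
    exact mul_le_mul_of_nonneg_right h3 (Real.exp_pos _).le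
  have hsm : n * R * (1024 / 9) ^ u * (N1 : ℝ) ^ ((1 - x) - 2) ≤ 2 := by
    have h1 : (1024 / 9 : ℝ) ^ u ≤ Real.exp (4.75 * u) := pow_exp_le (by norm_num) exp_c3 u
    calc n * R * (1024 / 9) ^ u * (N1 : ℝ) ^ ((1 - x) - 2)
        ≤ (2 * Real.exp ((2 * x + 1 / 2000) * L)) * R * Real.exp (4.75 * u) * (4 * Real.exp (-(0.99 * (1 + x) * L))) := by
          gcongr
      _ = 8 * Real.exp ((2 * x + 1 / 2000) * L + 0.0125 * L + 4.75 * u + -(0.99 * (1 + x) * L)) := by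
          rw [hR, Real.exp_add, Real.exp_add, Real.exp_add]; ring
      _ ≤ 8 * Real.exp (-5) := by
          apply mul_le_mul_of_nonneg_left _ (by norm_num)
          apply Real.exp_le_exp.2
          nlinarith
      _ ≤ 2 := by
          have h5 : Real.exp (-5) ≤ 1 / 4 := by
            rw [Real.exp_neg, inv_eq_one_div]
            apply one_div_le_one_div_of_le (by norm_num)
            have := Real.add_one_le_exp (5 : ℝ)
            linarith
          linarith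
  have key := En_sq hd hγ0 hγ1 u hR1 N1 N hN11 hN1N hq hH n i hn hi hsm hF
  -- the two factors
  have f1 : (u + 1) * (N * (27 / 32) ^ u + R) ≤ 3 * L * Real.exp (0.9690625 * L) := by
    have g1 : (27 / 32 : ℝ) ^ u ≤ Real.exp (-0.165 * u) := pow_exp_le (by norm_num) c1' u
    have g2 : N * (27 / 32 : ℝ) ^ u ≤ 2 * Real.exp (0.9690625 * L) := by
      calc (N : ℝ) * (27 / 32) ^ u ≤ N * Real.exp (-0.165 * u) := mul_le_mul_of_nonneg_left g1 hNpos.le
        _ = Real.exp (L + -0.165 * u) := by rw [Real.exp_add, hexp]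
        _ ≤ Real.exp (0.165 + 0.9690625 * L) := Real.exp_le_exp.2 (by linarith)
        _ = Real.exp 0.165 * Real.exp (0.9690625 * L) := by rw [Real.exp_add]
        _ ≤ 2 * Real.exp (0.9690625 * L) := by
          apply mul_le_mul_of_nonneg_right _ (Real.exp_pos _).le
          exact exp_c1.trans (by norm_num)
    have g3 : R ≤ Real.exp (0.9690625 * L) := Real.exp_le_exp.2 (by linarith)
    have g4 : (u : ℝ) + 1 ≤ L := by linarith
    have g5 : 0 ≤ N * (27 / 32 : ℝ) ^ u + R := by positivity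
    calc ((u : ℝ) + 1) * (N * (27 / 32) ^ u + R) ≤ L * (3 * Real.exp (0.9690625 * L)) :=
          mul_le_mul g4 (by linarith) g5 (by linarith)
      _ = _ := by ring
  have f2 : (N + 4 / ((1 - x) * (1 - (1 - x))) * (3 * N : ℝ) ^ (2 - (1 - x)) * (1 + L)) ≤ C1 * L * Real.exp ((1 + x) * L) := by
    have g1 : (3 * N : ℝ) ^ (2 - (1 - x)) ≤ 9 * Real.exp ((1 + x) * L) := by
      rw [Real.mul_rpow (by norm_num) hNpos.le]
      have g2 : (3 : ℝ) ^ (2 - (1 - x)) ≤ 9 := by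
        calc (3 : ℝ) ^ (2 - (1 - x)) ≤ (3 : ℝ) ^ (2 : ℝ) := Real.rpow_le_rpow_of_exponent_le (by norm_num) (by linarith)
          _ = 9 := by norm_num
      have g3 : (N : ℝ) ^ (2 - (1 - x)) = Real.exp ((1 + x) * L) := by
        rw [← hexp, ← Real.exp_mul]; congr 1; ring
      rw [g3]
      exact mul_le_mul_of_nonneg_right g2 (Real.exp_pos _).le
    have g4 : (N : ℝ) ≤ L * Real.exp ((1 + x) * L) := by
      have : (N : ℝ) ≤ Real.exp ((1 + x) * L) := by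
        rw [← hexp]; apply Real.exp_le_exp.2; nlinarith
      nlinarith [Real.exp_pos ((1 + x) * L)]
    have g5 : 4 / ((1 - x) * (1 - (1 - x))) * (3 * N : ℝ) ^ (2 - (1 - x)) * (1 + L)
        ≤ 4 / ((1 - x) * (1 - (1 - x))) * (9 * Real.exp ((1 + x) * L)) * (2 * L) := by
      have : 1 + L ≤ 2 * L := by linarith
      have h0 : 0 ≤ (3 * N : ℝ) ^ (2 - (1 - x)) := by positivity
      gcongr
    rw [hC1]
    calc _ ≤ L * Real.exp ((1 + x) * L) + 4 / ((1 - x) * (1 - (1 - x))) * (9 * Real.exp ((1 + x) * L)) * (2 * L) :=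
          add_le_add g4 g5
      _ = _ := by ring
  have hx2 : (0 : ℝ) ≤ N + 4 / ((1 - x) * (1 - (1 - x))) * (3 * N : ℝ) ^ (2 - (1 - x)) * (1 + L) := by
    have : 0 ≤ 1 + L := by linarith
    positivity
  have h3 := key.trans (mul_le_mul f1 f2 hx2 (by positivity))
  have h4 : 3 * L * Real.exp (0.9690625 * L) * (C1 * L * Real.exp ((1 + x) * L))
      ≤ (3 * C1 * (L * Real.exp ((0.98453125 + x / 2) * L))) ^ 2 := by
    have e1 : Real.exp (0.9690625 * L) * Real.exp ((1 + x) * L) = Real.exp ((0.98453125 + x / 2) * L) ^ 2 := by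
      rw [← Real.exp_add, ← Real.exp_nat_mul]; congr 1; push_cast; ring
    have e2 : 3 * L * Real.exp (0.9690625 * L) * (C1 * L * Real.exp ((1 + x) * L))
        = 3 * C1 * L ^ 2 * (Real.exp (0.9690625 * L) * Real.exp ((1 + x) * L)) := by ring
    rw [e2, e1]
    have e3 : (3 * C1 * (L * Real.exp ((0.98453125 + x / 2) * L))) ^ 2
        = (3 * C1) * (3 * C1 * L ^ 2 * Real.exp ((0.98453125 + x / 2) * L) ^ 2) := by ring
    rw [e3]
    have e4 : 0 ≤ 3 * C1 * L ^ 2 * Real.exp ((0.98453125 + x / 2) * L) ^ 2 := by positivity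
    nlinarith
  exact (pow_le_pow_iff_left₀ (norm_nonneg _) (by positivity) two_ne_zero).1 (h3.trans h4)

end Pool.Agent.Y965.PS
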