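import Pool.Agent.H469R2.NK.KL

/-! Second differences of a power with exponent in `(0,1)`, and the resulting exponential sums. -/

set_option autoImplicit false

namespace Pool.Agent.Y965.PS

open Finset Set Pool.Agent.H469R2.NK

/-- bounds from the mean value theorem -/
theorem mvt {f f' : ℝ → ℝ} {a b lo hi : ℝ} (hab : a ≤ b) (hf : ∀ x ∈ Set.Icc a b, HasDerivAt f (f' x) x)
    (h : ∀ x ∈ Set.Icc a b, lo ≤ f' x ∧ f' x ≤ hi) : lo * (b - a) ≤ f b - f a ∧ f b - f a ≤ hi * (b - a) := by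
  rcases hab.eq_or_lt with rfl | hlt
  · simp
  obtain ⟨c, hc, hc'⟩ := exists_hasDerivAt_eq_slope f f' hlt
    (fun x hx => (hf x hx).continuousAt.continuousWithinAt) (fun x hx => hf x ⟨hx.1.le, hx.2.le⟩)
  have h1 := h c ⟨hc.1.le, hc.2.le⟩
  have h2 : 0 < b - a := by linarith
  rw [hc'] at h1
  rw [le_div_iff₀ h2, div_le_iff₀ h2] at h1
  exact h1

/-- second difference of `y ^ γ`, with the sign changed -/
noncomputable def DD (γ s h y : ℝ) : ℝ := -((y + s + h) ^ γ - (y + s) ^ γ - ((y + h) ^ γ - y ^ γ))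

theorem rp (γ : ℝ) {x : ℝ} (hx : 0 < x) : HasDerivAt (fun x : ℝ => x ^ γ) (γ * x ^ (γ - 1)) x :=
  Real.hasDerivAt_rpow_const (Or.inl hx.ne')

theorem rp1 (γ : ℝ) {x : ℝ} (hx : 0 < x) :
    HasDerivAt (fun x : ℝ => γ * x ^ (γ - 1)) (γ * ((γ - 1) * x ^ (γ - 2))) x := by
  have := (rp (γ - 1) hx).const_mul γ
  rwa [show γ - 1 - 1 = γ - 2 by ring] at this

theorem rp_add (γ h : ℝ) {x : ℝ} (hx : 0 < x + h) :
    HasDerivAt (fun x : ℝ => (x + h) ^ γ) (γ * (x + h) ^ (γ - 1)) x := by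
  have := (rp γ hx).comp x ((hasDerivAt_id x).add_const h)
  rw [mul_one] at this
  exact this

variable {γ : ℝ}

/-- the derivative of `(y + h) ^ γ - y ^ γ` -/
theorem q_deriv (hγ0 : 0 < γ) (hγ1 : γ < 1) {h y : ℝ} (hy : 0 < y) (hh : 0 ≤ h) :
    -(h * (γ * (1 - γ)) * y ^ (γ - 2)) ≤ γ * (y + h) ^ (γ - 1) - γ * y ^ (γ - 1) ∧
    γ * (y + h) ^ (γ - 1) - γ * y ^ (γ - 1) ≤ -(h * (γ * (1 - γ)) * (y + h) ^ (γ - 2)) := by
  have h1 := mvt (f := fun x : ℝ => γ * x ^ (γ - 1)) (f' := fun x => γ * ((γ - 1) * x ^ (γ - 2)))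
    (a := y) (b := y + h) (lo := -((γ * (1 - γ)) * y ^ (γ - 2))) (hi := -((γ * (1 - γ)) * (y + h) ^ (γ - 2)))
    (by linarith) (fun x hx => rp1 γ (by linarith [hx.1])) (by
      intro x hx
      have hx0 : 0 < x := by linarith [hx.1]
      have a1 : x ^ (γ - 2) ≤ y ^ (γ - 2) := Real.rpow_le_rpow_of_nonpos hy hx.1 (by linarith)
      have a2 : (y + h) ^ (γ - 2) ≤ x ^ (γ - 2) := Real.rpow_le_rpow_of_nonpos hx0 hx.2 (by linarith)
      have a3 : 0 < γ * (1 - γ) := mul_pos hγ0 (by linarith)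
      constructor
      · have := mul_le_mul_of_nonneg_left a1 a3.le
        nlinarith
      · have := mul_le_mul_of_nonneg_left a2 a3.le
        nlinarith)
  have e : y + h - y = h := by ring
  rw [e] at h1
  constructor
  · refine le_trans (le_of_eq ?_) h1.1; ring
  · refine h1.2.trans (le_of_eq ?_); ring

theorem q_hasDeriv {h y : ℝ} (hy : 0 < y) (hh : 0 ≤ h) :
    HasDerivAt (fun y : ℝ => (y + h) ^ γ - y ^ γ) (γ * (y + h) ^ (γ - 1) - γ * y ^ (γ - 1)) y :=
  (rp_add γ h (by linarith)).sub (rp γ hy)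

theorem DD_bounds (hγ0 : 0 < γ) (hγ1 : γ < 1) {s h y : ℝ} (hy : 0 < y) (hs : 0 ≤ s) (hh : 0 ≤ h) :
    s * h * (γ * (1 - γ)) * (y + s + h) ^ (γ - 2) ≤ DD γ s h y ∧
    DD γ s h y ≤ s * h * (γ * (1 - γ)) * y ^ (γ - 2) := by
  have a3 : 0 < γ * (1 - γ) := mul_pos hγ0 (by linarith)
  have h1 := mvt (f := fun y : ℝ => (y + h) ^ γ - y ^ γ)
    (f' := fun y => γ * (y + h) ^ (γ - 1) - γ * y ^ (γ - 1)) (a := y) (b := y + s)
    (lo := -(h * (γ * (1 - γ)) * y ^ (γ - 2))) (hi := -(h * (γ * (1 - γ)) * (y + s + h) ^ (γ - 2)))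
    (by linarith) (fun x hx => q_hasDeriv (by linarith [hx.1]) hh) (by
      intro x hx
      have hx0 : 0 < x := by linarith [hx.1]
      have h2 := q_deriv hγ0 hγ1 hx0 hh
      have a1 : x ^ (γ - 2) ≤ y ^ (γ - 2) := Real.rpow_le_rpow_of_nonpos hy hx.1 (by linarith)
      have a2 : (y + s + h) ^ (γ - 2) ≤ (x + h) ^ (γ - 2) :=
        Real.rpow_le_rpow_of_nonpos (by linarith) (by linarith [hx.2]) (by linarith)
      have a4 : 0 ≤ h * (γ * (1 - γ)) := by positivity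
      have a5 := mul_le_mul_of_nonneg_left a1 a4
      have a6 := mul_le_mul_of_nonneg_left a2 a4
      exact ⟨by linarith [h2.1], by linarith [h2.2]⟩)
  have e : y + s - y = s := by ring
  rw [e] at h1
  unfold DD
  constructor
  · have h2 := h1.2
    have e2 : -(h * (γ * (1 - γ)) * (y + s + h) ^ (γ - 2)) * s = -(s * h * (γ * (1 - γ)) * (y + s + h) ^ (γ - 2)) := by
      ring
    rw [e2] at h2
    linarith
  · have h2 := h1.1
    have e2 : -(h * (γ * (1 - γ)) * y ^ (γ - 2)) * s = -(s * h * (γ * (1 - γ)) * y ^ (γ - 2)) := by ring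
    rw [e2] at h2
    linarith

/-- the second difference decreases -/
theorem DD_anti (hγ0 : 0 < γ) (hγ1 : γ < 1) {s h y y' : ℝ} (hy : 0 < y) (hyy : y ≤ y') (hs : 0 ≤ s) (hh : 0 ≤ h) :
    DD γ s h y' ≤ DD γ s h y := by
  -- the derivative of `q` is increasing
  have hq : ∀ x x' : ℝ, 0 < x → x ≤ x' → γ * (x + h) ^ (γ - 1) - γ * x ^ (γ - 1)
      ≤ γ * (x' + h) ^ (γ - 1) - γ * x' ^ (γ - 1) := by
    intro x x' hx hxx
    have h1 := mvt (f := fun y : ℝ => γ * (y + h) ^ (γ - 1) - γ * y ^ (γ - 1))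
      (f' := fun y => γ * ((γ - 1) * (y + h) ^ (γ - 2)) - γ * ((γ - 1) * y ^ (γ - 2))) (a := x) (b := x')
      (lo := 0) (hi := γ * (1 - γ) * x ^ (γ - 2)) hxx (by
        intro w hw
        have hw0 : 0 < w := by linarith [hw.1]
        have d1 := (rp1 γ (x := w + h) (by linarith)).comp w ((hasDerivAt_id w).add_const h)
        rw [mul_one] at d1
        exact d1.sub (rp1 γ hw0)) (by
        intro w hw
        have hw0 : 0 < w := by linarith [hw.1]
        have a1 : (w + h) ^ (γ - 2) ≤ w ^ (γ - 2) := Real.rpow_le_rpow_of_nonpos hw0 (by linarith) (by linarith)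
        have a2 : w ^ (γ - 2) ≤ x ^ (γ - 2) := Real.rpow_le_rpow_of_nonpos hx hw.1 (by linarith)
        have a0 : 0 < (w + h) ^ (γ - 2) := Real.rpow_pos_of_pos (by linarith) _
        have a3 : 0 < γ * (1 - γ) := mul_pos hγ0 (by linarith)
        constructor
        · have := mul_le_mul_of_nonneg_left a1 a3.le
          nlinarith
        · have := mul_le_mul_of_nonneg_left a2 a3.le
          have h5 := mul_pos a3 a0
          nlinarith)
    have := h1.1
    rw [zero_mul] at this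
    linarith
  -- the second difference
  have h1 := mvt (f := fun y : ℝ => ((y + s) + h) ^ γ - (y + s) ^ γ - ((y + h) ^ γ - y ^ γ))
    (f' := fun y => (γ * ((y + s) + h) ^ (γ - 1) - γ * (y + s) ^ (γ - 1)) - (γ * (y + h) ^ (γ - 1) - γ * y ^ (γ - 1)))
    (a := y) (b := y') (lo := 0) (hi := h * (γ * (1 - γ)) * y ^ (γ - 2)) hyy (by
      intro w hw
      have hw0 : 0 < w := by linarith [hw.1]
      have d1 := (q_hasDeriv (γ := γ) (y := w + s) (by linarith) hh).comp w ((hasDerivAt_id w).add_const s)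
      rw [mul_one] at d1
      exact d1.sub (q_hasDeriv hw0 hh)) (by
      intro w hw
      have hw0 : 0 < w := by linarith [hw.1]
      have b1 := hq w (w + s) hw0 (by linarith)
      have b2 := (q_deriv hγ0 hγ1 hw0 hh).1
      have b3 := (q_deriv hγ0 hγ1 (y := w + s) (by linarith) hh).2
      have a2 : w ^ (γ - 2) ≤ y ^ (γ - 2) := Real.rpow_le_rpow_of_nonpos hy hw.1 (by linarith)
      have a0 : 0 < (w + s + h) ^ (γ - 2) := Real.rpow_pos_of_pos (by linarith) _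
      have a3 : 0 < γ * (1 - γ) := mul_pos hγ0 (by linarith)
      have a4 : 0 ≤ h * (γ * (1 - γ)) := by positivity
      have a5 := mul_le_mul_of_nonneg_left a2 a4
      have a6 : 0 ≤ h * (γ * (1 - γ)) * (w + s + h) ^ (γ - 2) := by positivity
      exact ⟨by linarith, by linarith⟩)
  have := h1.1
  rw [zero_mul] at this
  unfold DD
  linarith

/-- exponential sums with the phase `κ (y ^ γ - (y + h) ^ γ)` along an arithmetic progression -/
theorem kl_phase (hγ0 : 0 < γ) (hγ1 : γ < 1) {κ q h Y0 Y2 y : ℝ} (hκ : 0 < κ) (hq : 0 < q) (hh : 0 < h)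
    (hY0 : 0 < Y0) (J : ℕ) (hy : Y0 ≤ y) (hJ : ∀ j < J, y + q * j + q + h ≤ Y2) (hY02 : Y0 ≤ Y2)
    (hsmall : κ * (q * h * (γ * (1 - γ)) * Y0 ^ (γ - 2)) ≤ 1 / 2) :
    ‖∑ j ∈ range J, e (κ * ((y + q * j) ^ γ - (y + q * j + h) ^ γ))‖
      ≤ 2 / (κ * (q * h * (γ * (1 - γ)) * Y2 ^ (γ - 2))) := by
  have a3 : 0 < γ * (1 - γ) := mul_pos hγ0 (by linarith)
  set θ := κ * (q * h * (γ * (1 - γ)) * Y2 ^ (γ - 2)) with hθ
  have hY2 : 0 < Y2 := by linarith
  have hθ0 : 0 < θ := by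
    have := Real.rpow_pos_of_pos hY2 (γ - 2)
    positivity
  have hθ1 : θ ≤ 1 / 2 := by
    refine le_trans ?_ hsmall
    have : Y2 ^ (γ - 2) ≤ Y0 ^ (γ - 2) := Real.rpow_le_rpow_of_nonpos hY0 hY02 (by linarith)
    rw [hθ]
    gcongr
  have key : ∀ j : ℕ, κ * ((y + q * ((j + 1 : ℕ) : ℝ)) ^ γ - (y + q * ((j + 1 : ℕ) : ℝ) + h) ^ γ)
      - κ * ((y + q * j) ^ γ - (y + q * j + h) ^ γ) = κ * DD γ q h (y + q * j) := by
    intro j
    unfold DD
    have e1 : y + q * ((j + 1 : ℕ) : ℝ) = y + q * j + q := by push_cast; ring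
    rw [e1]
    ring
  have hpos : ∀ j : ℕ, 0 < y + q * j := by
    intro j
    have : 0 ≤ q * (j : ℝ) := by positivity
    linarith
  refine kusmin_landau_anti (fun j => κ * ((y + q * j) ^ γ - (y + q * j + h) ^ γ)) J hθ0 ?_ ?_ ?_
  · intro j hj
    rw [key]
    have h1 := (DD_bounds hγ0 hγ1 (hpos j) hq.le hh.le).1
    have h2 : Y2 ^ (γ - 2) ≤ (y + q * j + q + h) ^ (γ - 2) :=
      Real.rpow_le_rpow_of_nonpos (by linarith [hpos j]) (hJ j hj) (by linarith)
    rw [hθ]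
    apply mul_le_mul_of_nonneg_left _ hκ.le
    refine le_trans ?_ h1
    gcongr
  · intro j hj
    rw [key]
    have h1 := (DD_bounds hγ0 hγ1 (hpos j) hq.le hh.le).2
    have h2 : (y + q * j) ^ (γ - 2) ≤ Y0 ^ (γ - 2) := by
      refine Real.rpow_le_rpow_of_nonpos hY0 ?_ (by linarith)
      have : 0 ≤ q * (j : ℝ) := by positivity
      linarith
    have h3 : κ * DD γ q h (y + q * j) ≤ 1 / 2 := by
      refine le_trans ?_ hsmall
      apply mul_le_mul_of_nonneg_left _ hκ.le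
      refine h1.trans ?_
      gcongr
    linarith
  · intro j _
    rw [key j]
    have h4 := key (j + 1)
    have e5 : j + 1 + 1 = j + 2 := rfl
    rw [e5] at h4
    rw [h4]
    apply mul_le_mul_of_nonneg_left _ hκ.le
    apply DD_anti hγ0 hγ1 (hpos j) _ hq.le hh.le
    push_cast
    nlinarith

end Pool.Agent.Y965.PS
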