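import Pool.Agent.Y965.PS.Disp
import Pool.Agent.Y965.PS.Phase
import Pool.Agent.Y965.PS.Maj

/-! Exponential sums over the good integers with the phases `n (m + i) ^ γ`. -/

set_option autoImplicit false

namespace Pool.Agent.Y965.PS

open Finset Pool.Agent.H469R2.NK

variable {d : ℤ}

theorem harm (M : ℕ) : ∑ h ∈ Icc 1 M, (1 / (h : ℝ)) ≤ 1 + Real.log M := by
  have h2 : ∑ h ∈ Icc 1 M, (1 / (h : ℝ)) = ((harmonic M : ℚ) : ℝ) := by
    rw [harmonic_eq_sum_Icc]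
    push_cast
    exact Finset.sum_congr rfl fun i _ => by rw [one_div]
  rw [h2]
  exact harmonic_le_one_add_log M

/-- the exponential sum over the good integers, `n ≥ 1` -/
theorem En_sq (hd : d = 1 ∨ d = -1) {γ : ℝ} (hγ0 : 0 < γ) (hγ1 : γ < 1) (u : ℕ) {R : ℝ} (hR : 1 ≤ R) (N1 N : ℕ)
    (hN1 : 1 ≤ N1) (hN1N : N1 ≤ N) (hq : 2 ^ (5 * u) ≤ N) (hH : R * (32 / 9) ^ u ≤ N) (n i : ℕ) (hn : 1 ≤ n) (hi : i ≤ 1)
    (hsm : n * R * (1024 / 9) ^ u * (N1 : ℝ) ^ (γ - 2) ≤ 2) {F : ℤ → ℝ} (hF : Sync d F) :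
    ‖∑ m ∈ GS d u R N1 N, (F m : ℂ) * e (n * ((m : ℝ) + i) ^ γ)‖ ^ 2 ≤ ((u + 1) * (N * (27 / 32) ^ u + R)) *
      (N + 4 / (γ * (1 - γ)) * (3 * N : ℝ) ^ (2 - γ) * (1 + Real.log N)) := by
  have a3 : 0 < γ * (1 - γ) := mul_pos hγ0 (by linarith)
  have hNpos : (0 : ℝ) < N := by
    have : 0 < N := by omega
    exact_mod_cast this
  have hn0 : (0 : ℝ) < n := by exact_mod_cast hn
  have hN1pos : (0 : ℝ) < N1 := by exact_mod_cast hN1
  set q : ℝ := 2 ^ (5 * u) with hqdef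
  have hq0 : 0 < q := by positivity
  have hqN : q ≤ N := by rw [hqdef]; exact_mod_cast hq
  have h32 : q = 32 ^ u := by rw [hqdef, pow_mul]; norm_num
  set Y2 : ℝ := 3 * N with hY2
  have hY2pos : 0 < Y2 := by positivity
  have hY2p : 0 < Y2 ^ (γ - 2) := Real.rpow_pos_of_pos hY2pos _
  set β : ℕ → ℝ := fun h => 2 / (n * (q * h * (γ * (1 - γ)) * Y2 ^ (γ - 2))) with hβ
  have hβ0 : ∀ h, 0 ≤ β h := fun h => by rw [hβ]; positivity
  have key := disp hd u (R := R) (by linarith) N1 N hF (z := fun m : ℕ => e (n * ((m : ℝ) + i) ^ γ))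
    (fun m => (norm_e _).le) hβ0 (by
      intro h hh1 hh2 m0 J hm0 hJ
      have hh0 : (0 : ℝ) < h := by exact_mod_cast hh1
      have e1 : ∀ j : ℕ, e (n * (((m0 + 2 ^ (5 * u) * j : ℕ) : ℝ) + i) ^ γ) *
          (starRingEnd ℂ) (e (n * (((m0 + 2 ^ (5 * u) * j + h : ℕ) : ℝ) + i) ^ γ))
          = e (n * (((m0 : ℝ) + i + q * j) ^ γ - ((m0 : ℝ) + i + q * j + h) ^ γ)) := by
        intro j
        rw [conj_e, ← e_add]
        congr 1
        have f1 : (((m0 + 2 ^ (5 * u) * j : ℕ) : ℝ) + i) = (m0 : ℝ) + i + q * j := by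
          rw [hqdef]; push_cast; ring
        have f2 : (((m0 + 2 ^ (5 * u) * j + h : ℕ) : ℝ) + i) = (m0 : ℝ) + i + q * j + h := by
          rw [hqdef]; push_cast; ring
        rw [f1, f2]; ring
      rw [sum_congr rfl fun j _ => e1 j]
      refine kl_phase hγ0 hγ1 hn0 hq0 hh0 hN1pos J (Y2 := Y2) ?_ ?_ ?_ ?_
      · have : (N1 : ℝ) ≤ m0 := by exact_mod_cast hm0.le
        have : (0 : ℝ) ≤ i := Nat.cast_nonneg i
        linarith
      · intro j hj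
        have h1 : ((m0 + 2 ^ (5 * u) * j + h : ℕ) : ℝ) ≤ N := by exact_mod_cast hJ j hj
        push_cast at h1
        rw [← hqdef] at h1
        have h2 : (i : ℝ) ≤ 1 := by exact_mod_cast hi
        have h3 : (1 : ℝ) ≤ N := by exact_mod_cast (by omega : 1 ≤ N)
        rw [hY2]
        linarith
      · have : (N1 : ℝ) ≤ N := by exact_mod_cast hN1N
        rw [hY2]; linarith
      · have h1 : q * (h : ℝ) ≤ R * (1024 / 9) ^ u := by
          calc q * (h : ℝ) ≤ q * (R * (32 / 9) ^ u) := mul_le_mul_of_nonneg_left hh2 hq0.le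
            _ = R * (32 ^ u * (32 / 9) ^ u) := by rw [h32]; ring
            _ = R * (1024 / 9) ^ u := by rw [← mul_pow]; norm_num
        have h2 : γ * (1 - γ) ≤ 1 / 4 := by nlinarith [sq_nonneg (γ - 1 / 2)]
        have h3 : 0 < (N1 : ℝ) ^ (γ - 2) := Real.rpow_pos_of_pos hN1pos _
        calc n * (q * h * (γ * (1 - γ)) * (N1 : ℝ) ^ (γ - 2))
            ≤ n * (R * (1024 / 9) ^ u * (1 / 4) * (N1 : ℝ) ^ (γ - 2)) := by gcongr
          _ = (n * R * (1024 / 9) ^ u * (N1 : ℝ) ^ (γ - 2)) / 4 := by ring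
          _ ≤ 2 / 4 := by gcongr
          _ = 1 / 2 := by norm_num)
  refine key.trans ?_
  apply mul_le_mul_of_nonneg_left _ (by positivity)
  have h1 : ∑ h ∈ Icc 1 ⌊R * (32 / 9) ^ u⌋₊, β h
      = 2 / (n * (q * (γ * (1 - γ)) * Y2 ^ (γ - 2))) * ∑ h ∈ Icc 1 ⌊R * (32 / 9) ^ u⌋₊, (1 / (h : ℝ)) := by
    rw [mul_sum]
    apply sum_congr rfl
    intro h hh
    rw [mem_Icc] at hh
    have hh0 : (h : ℝ) ≠ 0 := by
      have : (0 : ℝ) < h := by exact_mod_cast hh.1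
      linarith
    rw [hβ]; dsimp only
    field_simp
  have hfl : 1 ≤ ⌊R * (32 / 9 : ℝ) ^ u⌋₊ := by
    apply Nat.le_floor
    have : (1 : ℝ) ≤ (32 / 9) ^ u := one_le_pow₀ (by norm_num)
    push_cast
    nlinarith
  have h2 : ∑ h ∈ Icc 1 ⌊R * (32 / 9) ^ u⌋₊, (1 / (h : ℝ)) ≤ 1 + Real.log N := by
    refine (harm _).trans ?_
    have h3 : (⌊R * (32 / 9) ^ u⌋₊ : ℝ) ≤ N := (Nat.floor_le (by positivity)).trans hH
    have h4 : (0 : ℝ) < ⌊R * (32 / 9 : ℝ) ^ u⌋₊ := by exact_mod_cast hfl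
    linarith [Real.log_le_log h4 h3]
  have hlog : 0 ≤ 1 + Real.log N := by
    have : 0 ≤ Real.log N := Real.log_natCast_nonneg N
    linarith
  have h3 : 2 * (q * ∑ h ∈ Icc 1 ⌊R * (32 / 9) ^ u⌋₊, β h) ≤ 4 / (γ * (1 - γ)) * (3 * N : ℝ) ^ (2 - γ) * (1 + Real.log N) := by
    rw [h1]
    have e2 : (3 * N : ℝ) ^ (2 - γ) = (Y2 ^ (γ - 2))⁻¹ := by
      rw [← hY2, ← Real.rpow_neg hY2pos.le]; congr 1; ring
    rw [e2]
    have h4 : 2 * (q * (2 / (n * (q * (γ * (1 - γ)) * Y2 ^ (γ - 2))) * ∑ h ∈ Icc 1 ⌊R * (32 / 9) ^ u⌋₊, (1 / (h : ℝ))))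
        = (1 / n) * (4 / (γ * (1 - γ)) * (Y2 ^ (γ - 2))⁻¹ * ∑ h ∈ Icc 1 ⌊R * (32 / 9) ^ u⌋₊, (1 / (h : ℝ))) := by
      field_simp
      ring
    rw [h4]
    have h5 : (1 : ℝ) / n ≤ 1 := by rw [div_le_one hn0]; exact_mod_cast hn
    have h6 : 0 ≤ ∑ h ∈ Icc 1 ⌊R * (32 / 9) ^ u⌋₊, (1 / (h : ℝ)) := sum_nonneg fun _ _ => by positivity
    calc _ ≤ 1 * (4 / (γ * (1 - γ)) * (Y2 ^ (γ - 2))⁻¹ * ∑ h ∈ Icc 1 ⌊R * (32 / 9) ^ u⌋₊, (1 / (h : ℝ))) :=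
          mul_le_mul_of_nonneg_right h5 (by positivity)
      _ ≤ _ := by rw [one_mul]; exact mul_le_mul_of_nonneg_left h2 (by positivity)
  linarith

end Pool.Agent.Y965.PS
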